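import Pool.Agent.H.MP_02f3ba_co.SS.Stage

/-!
The abstract signing theorem.
-/

namespace Pool.Agent.H.MP_02f3ba_co.SS

private lemma w_contract (m' m : ℝ) (_hm' : 0 ≤ m') (hm : 0 ≤ m) (h : m' ≤ 7 / 8 * m) :
    Real.sqrt (Real.sqrt m') ≤ 31 / 32 * Real.sqrt (Real.sqrt m) := by
  rw [Real.sqrt_le_iff]
  refine ⟨by positivity, ?_⟩
  rw [mul_pow, Real.sq_sqrt (Real.sqrt_nonneg _), Real.sqrt_le_iff]
  refine ⟨by positivity, ?_⟩
  rw [mul_pow, Real.sq_sqrt hm]
  have : (7 / 8 : ℝ) * m ≤ ((31 / 32 : ℝ) ^ 2) ^ 2 * m := by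
    apply mul_le_mul_of_nonneg_right _ hm
    norm_num
  linarith

theorem abst (Q : ℝ) (hQ : 0 ≤ Q) (q : ℕ) : ∃ C : ℝ, 0 < C ∧
    ∀ (r : ℕ) (V ι : Type) [Fintype V] [DecidableEq V] (S : Finset ι)
      (lev : ι → ℕ) (v : ι → V → ℝ), Fintype.card V = 2 ^ r →
      (∀ s ∈ S, ∀ y, |v s y| ≤ 1) →
      (∀ s ∈ S, (Finset.univ.filter fun y => v s y ≠ 0).card ≤ 2 ^ lev s) →
      (∀ s ∈ S, lev s < r + q) →
      (∀ i, ((S.filter fun s => lev s = i).card : ℝ) * 2 ^ i ≤ Q * 4 ^ r) →
      ∃ ε : V → ℤ, (∀ y, ε y = 1 ∨ ε y = -1) ∧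
        ∃ E : ℕ → ℝ, (∀ i, 0 ≤ E i) ∧
          (∀ s ∈ S, |∑ y, v s y * (ε y : ℝ)| ≤ E (lev s)) ∧
          ∑ i ∈ Finset.range (r + q), E i ≤ C * Real.sqrt (2 ^ r) := by
  obtain ⟨C₁, hC₁, hst⟩ := stage Q hQ q
  refine ⟨32 * C₁, by positivity, ?_⟩
  intro r V ι _ _ S lev v hcard hv1 hv2 hlev hcnt
  have key : ∀ Y : Finset V, ∃ ε : V → ℤ, (∀ y, ε y = 1 ∨ ε y = -1) ∧
        ∃ E : ℕ → ℝ, (∀ i, 0 ≤ E i) ∧
          (∀ s ∈ S, |∑ y ∈ Y, v s y * (ε y : ℝ)| ≤ E (lev s)) ∧
          ∑ i ∈ Finset.range (r + q), E i ≤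
            32 * C₁ * Real.sqrt (Real.sqrt ((Y.card : ℝ) * 2 ^ r)) := by
    intro Y
    induction Y using Finset.strongInduction with
    | H Y ih =>
      rcases Y.eq_empty_or_nonempty with hY | hY
      · subst hY
        refine ⟨fun _ => 1, fun _ => Or.inl rfl, fun _ => 0, fun _ => le_refl _, ?_, ?_⟩
        · intro s _
          simp
        · simp
      · obtain ⟨χ, hχ, hχc, D, hD0, hD1, hD2⟩ := hst r V ι S lev v hcard hv1 hv2 hlev hcnt Y hY
        have hYpos : (0 : ℝ) < (Y.card : ℝ) := by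
          exact_mod_cast hY.card_pos
        set Y' : Finset V := Y.filter (fun y => χ y = 0) with hY'
        have hsum : ((Y'.card : ℝ)) + ((Y.filter fun y => χ y ≠ 0).card : ℝ) = (Y.card : ℝ) := by
          have := Finset.card_filter_add_card_filter_not (s := Y) (fun y => χ y = 0)
          exact_mod_cast this
        have hlt : Y' ⊂ Y := by
          refine Finset.ssubset_iff_subset_ne.mpr ⟨Finset.filter_subset _ _, ?_⟩
          intro he
          have h1 : (Y'.card : ℝ) = (Y.card : ℝ) := by rw [he]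
          linarith
        obtain ⟨ε', hε', E', hE0, hE1, hE2⟩ := ih Y' hlt
        refine ⟨fun y => if χ y = 0 then ε' y else χ y, ?_, fun i => D i + E' i, ?_, ?_, ?_⟩
        · intro y
          by_cases h0 : χ y = 0
          · simp only [h0, if_true]
            exact hε' y
          · simp only [h0, if_false]
            rcases hχ y with h | h | h
            · exact Or.inl h
            · exact absurd h h0
            · exact Or.inr h
        · intro i
          exact add_nonneg (hD0 i) (hE0 i)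
        · intro s hs
          have hsplit : ∑ y ∈ Y, v s y * (((if χ y = 0 then ε' y else χ y : ℤ)) : ℝ)
              = ∑ y ∈ Y, v s y * (χ y : ℝ) + ∑ y ∈ Y', v s y * (ε' y : ℝ) := by
            rw [hY', Finset.sum_filter, ← Finset.sum_add_distrib]
            apply Finset.sum_congr rfl
            intro y _
            by_cases h0 : χ y = 0
            · simp [h0]
            · simp [h0]
          rw [hsplit]
          exact (abs_add_le _ _).trans (add_le_add (hD1 s hs) (hE1 s hs))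
        · rw [Finset.sum_add_distrib]
          have hw := w_contract ((Y'.card : ℝ) * 2 ^ r) ((Y.card : ℝ) * 2 ^ r) (by positivity)
            (by positivity) (by
              have h2 : (Y'.card : ℝ) ≤ 7 / 8 * (Y.card : ℝ) := by linarith
              have h3 : (0 : ℝ) ≤ 2 ^ r := by positivity
              nlinarith [mul_le_mul_of_nonneg_right h2 h3])
          have h4 := mul_le_mul_of_nonneg_left hw (show (0 : ℝ) ≤ 32 * C₁ by positivity)
          linarith
  obtain ⟨ε, hε, E, hE0, hE1, hE2⟩ := key Finset.univ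
  refine ⟨ε, hε, E, hE0, hE1, hE2.trans (le_of_eq ?_)⟩
  rw [Finset.card_univ, hcard]
  congr 2
  push_cast
  rw [← sq, Real.sqrt_sq (by positivity)]

end Pool.Agent.H.MP_02f3ba_co.SS
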