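import Pool.Agent.H.MP_02f3ba_co.SS.Defs

/-!
Arithmetic of the antiperiodic sequence `anti L r A ε`, first part.
-/

namespace Pool.Agent.H.MP_02f3ba_co.SS

open Finset

theorem anti_add (L r : ℕ) (hL : 1 ≤ L) (A ε : ℕ → ℤ) (t : ℕ) :
    anti L r A ε (t + 2 ^ r * L) = -anti L r A ε t := by
  have hM : 0 < 2 ^ r * L := by positivity
  unfold anti
  rw [Nat.add_div_right _ hM, Nat.add_mod_right, Nat.add_mul_mod_self_right]
  rw [pow_succ]
  ring

theorem anti_sign (L r : ℕ) (A ε : ℕ → ℤ) (hA : ∀ n, A n = 1 ∨ A n = -1)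
    (hε : ∀ n, ε n = 1 ∨ ε n = -1) (t : ℕ) :
    anti L r A ε t = 1 ∨ anti L r A ε t = -1 := by
  unfold anti
  rcases neg_one_pow_eq_or ℤ (t / (2 ^ r * L)) with h1 | h1 <;>
    rcases hA (t % L) with h2 | h2 <;>
    rcases hε ((t % (2 ^ r * L)) / L) with h3 | h3 <;>
    rw [h1, h2, h3] <;> norm_num

private theorem anti_mul (L r : ℕ) (hL : 1 ≤ L) (A ε : ℕ → ℤ) (t w : ℕ) :
    anti L r A ε (t + w * (2 ^ r * L)) = (-1) ^ w * anti L r A ε t := by
  induction w with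
  | zero => simp
  | succ w ih =>
    rw [show t + (w + 1) * (2 ^ r * L) = (t + w * (2 ^ r * L)) + 2 ^ r * L by ring,
      anti_add L r hL, ih]
    ring

/-- after `M / gcd d M` steps of length `d` the sign flips -/
theorem anti_steps (L r : ℕ) (hL : 1 ≤ L) (A ε : ℕ → ℤ) (d : ℕ) (hd : 1 ≤ d) (hd2 : d ≤ 2 ^ r)
    (t : ℕ) :
    anti L r A ε (t + (2 ^ r * L / Nat.gcd d (2 ^ r * L)) * d) = -anti L r A ε t := by
  have hg : 0 < Nat.gcd d (2 ^ r * L) := Nat.gcd_pos_of_pos_left _ hd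
  obtain ⟨e, he⟩ := Nat.gcd_dvd_left d (2 ^ r * L)
  have hodd : Odd e := by
    rw [← Nat.not_even_iff_odd]
    intro hev
    obtain ⟨v, m, hm, hdm⟩ := Nat.exists_eq_two_pow_mul_odd (n := d) (by omega)
    have hv : v ≤ r := by
      have h1 : 2 ^ v ≤ 2 ^ r := by
        calc 2 ^ v ≤ 2 ^ v * m := Nat.le_mul_of_pos_right _ (by
              rcases hm with ⟨s, hs⟩
              omega)
          _ = d := hdm.symm
          _ ≤ 2 ^ r := hd2
      exact (Nat.pow_le_pow_iff_right (by norm_num)).1 h1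
    have h2 : 2 ^ v ∣ Nat.gcd d (2 ^ r * L) := by
      apply Nat.dvd_gcd
      · exact ⟨m, hdm⟩
      · exact Dvd.dvd.mul_right (pow_dvd_pow 2 hv) L
    have h3 : 2 ^ v * 2 ∣ d := by
      rw [he]
      exact mul_dvd_mul h2 hev.two_dvd
    rw [hdm] at h3
    have h4 : 2 ∣ m := Nat.dvd_of_mul_dvd_mul_left (by positivity) h3
    rcases hm with ⟨s, hs⟩
    omega
  have h5 : (2 ^ r * L / Nat.gcd d (2 ^ r * L)) * d = e * (2 ^ r * L) := by
    have h6 := Nat.div_mul_cancel (Nat.gcd_dvd_right d (2 ^ r * L))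
    calc (2 ^ r * L / Nat.gcd d (2 ^ r * L)) * d
        = (2 ^ r * L / Nat.gcd d (2 ^ r * L)) * (Nat.gcd d (2 ^ r * L) * e) := by rw [← he]
      _ = (2 ^ r * L / Nat.gcd d (2 ^ r * L) * Nat.gcd d (2 ^ r * L)) * e := by ring
      _ = e * (2 ^ r * L) := by rw [h6]; ring
  rw [h5, anti_mul L r hL, hodd.neg_one_pow]
  ring

/-- a block is visited at most `L` times during `M / gcd d M` steps -/
theorem visits (L r : ℕ) (hL : 1 ≤ L) (d : ℕ) (hd : 1 ≤ d) (c b : ℕ) (I : Finset ℕ)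
    (hI : ∀ k ∈ I, k < 2 ^ r * L / Nat.gcd d (2 ^ r * L)) :
    (I.filter fun k => ((c + k * d) % (2 ^ r * L)) / L = b).card ≤ L := by
  have hg : 0 < Nat.gcd d (2 ^ r * L) := Nat.gcd_pos_of_pos_left _ hd
  have hinj : ∀ k ∈ I, ∀ k' ∈ I, k ≤ k' →
      (c + k * d) % (2 ^ r * L) = (c + k' * d) % (2 ^ r * L) → k = k' := by
    intro k _ k' hk' hle h
    have h1 : 2 ^ r * L ∣ (k' - k) * d := by
      have h2 : 2 ^ r * L ∣ (c + k' * d) - (c + k * d) :=
        (Nat.modEq_iff_dvd' (Nat.add_le_add_left (Nat.mul_le_mul_right d hle) c)).1 h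
      have h3 : (c + k' * d) - (c + k * d) = (k' - k) * d := by
        rw [Nat.add_sub_add_left, Nat.sub_mul]
      rwa [h3] at h2
    have h4 : 2 ^ r * L / Nat.gcd d (2 ^ r * L) ∣ k' - k := by
      obtain ⟨e, he⟩ := Nat.gcd_dvd_left d (2 ^ r * L)
      obtain ⟨f, hf⟩ := Nat.gcd_dvd_right d (2 ^ r * L)
      have hcop : Nat.Coprime (d / Nat.gcd d (2 ^ r * L)) (2 ^ r * L / Nat.gcd d (2 ^ r * L)) :=
        Nat.coprime_div_gcd_div_gcd hg
      have h5 : 2 ^ r * L / Nat.gcd d (2 ^ r * L) ∣ (k' - k) * (d / Nat.gcd d (2 ^ r * L)) := by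
        have h6 : Nat.gcd d (2 ^ r * L) * (2 ^ r * L / Nat.gcd d (2 ^ r * L)) ∣
            Nat.gcd d (2 ^ r * L) * ((k' - k) * (d / Nat.gcd d (2 ^ r * L))) := by
          rw [Nat.mul_div_cancel' (Nat.gcd_dvd_right d (2 ^ r * L))]
          have h7 : Nat.gcd d (2 ^ r * L) * ((k' - k) * (d / Nat.gcd d (2 ^ r * L)))
              = (k' - k) * d := by
            calc Nat.gcd d (2 ^ r * L) * ((k' - k) * (d / Nat.gcd d (2 ^ r * L)))
                = (k' - k) * (Nat.gcd d (2 ^ r * L) * (d / Nat.gcd d (2 ^ r * L))) := by ring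
              _ = (k' - k) * d := by rw [Nat.mul_div_cancel' (Nat.gcd_dvd_left d (2 ^ r * L))]
          rw [h7]
          exact h1
        exact Nat.dvd_of_mul_dvd_mul_left hg h6
      exact hcop.symm.dvd_of_dvd_mul_right h5
    have h8 : k' - k < 2 ^ r * L / Nat.gcd d (2 ^ r * L) :=
      lt_of_le_of_lt (Nat.sub_le _ _) (hI k' hk')
    have h9 := Nat.eq_zero_of_dvd_of_lt h4 h8
    omega
  have hmaps : ∀ k ∈ I.filter (fun k => ((c + k * d) % (2 ^ r * L)) / L = b),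
      (c + k * d) % (2 ^ r * L) ∈ Ico (b * L) (b * L + L) := by
    intro k hk
    rw [Finset.mem_filter] at hk
    rw [Finset.mem_Ico]
    have h1 := Nat.div_add_mod ((c + k * d) % (2 ^ r * L)) L
    have h2 : ((c + k * d) % (2 ^ r * L)) % L < L := Nat.mod_lt _ (by omega)
    rw [hk.2] at h1
    constructor
    · rw [← h1, mul_comm]
      exact Nat.le_add_right _ _
    · calc (c + k * d) % (2 ^ r * L) = L * b + ((c + k * d) % (2 ^ r * L)) % L := h1.symm
        _ < L * b + L := Nat.add_lt_add_left h2 _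
        _ = b * L + L := by ring
  have hcard := Finset.card_le_card_of_injOn (fun k => (c + k * d) % (2 ^ r * L)) hmaps (by
    intro k hk k' hk' h
    rw [Finset.mem_coe, Finset.mem_filter] at hk hk'
    rcases le_total k k' with hle | hle
    · exact hinj k hk.1 k' hk'.1 hle h
    · exact (hinj k' hk'.1 k hk.1 hle h.symm).symm)
  rw [Nat.card_Ico] at hcard
  omega

end Pool.Agent.H.MP_02f3ba_co.SS
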