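import Pool.Agent.H.MP_02f3ba_co.SS.AntiA

/-!
Arithmetic of the antiperiodic sequence `anti L r A ε`, second part.
-/

namespace Pool.Agent.H.MP_02f3ba_co.SS

open Finset

private theorem ap_two (f : ℕ → ℤ) (m : ℕ) (hf : ∀ k, f (k + m) = -f k) :
    ∑ k ∈ range (2 * m), f k = 0 := by
  rw [two_mul, Finset.sum_range_add]
  have h : ∑ x ∈ range m, f (m + x) = -∑ x ∈ range m, f x := by
    rw [← Finset.sum_neg_distrib]
    apply Finset.sum_congr rfl
    intro x _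
    rw [add_comm m x, hf]
  rw [h]
  ring

private theorem ap_shift (f : ℕ → ℤ) (m : ℕ) (hf : ∀ k, f (k + m) = -f k) (n : ℕ) :
    ∑ k ∈ range (2 * m + n), f k = ∑ k ∈ range n, f k := by
  rw [Finset.sum_range_add, ap_two f m hf, zero_add]
  apply Finset.sum_congr rfl
  intro x _
  rw [show 2 * m + x = (x + m) + m by ring, hf, hf, neg_neg]

private theorem ap_mul (f : ℕ → ℤ) (m : ℕ) (hf : ∀ k, f (k + m) = -f k) (q n : ℕ) :
    ∑ k ∈ range (q * (2 * m) + n), f k = ∑ k ∈ range n, f k := by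
  induction q with
  | zero => simp
  | succ q ih =>
    rw [show (q + 1) * (2 * m) + n = 2 * m + (q * (2 * m) + n) by ring, ap_shift f m hf, ih]

private theorem ap_bound (f : ℕ → ℤ) (m : ℕ) (hm : 1 ≤ m) (hf : ∀ k, f (k + m) = -f k) (B : ℝ)
    (hB : ∀ n, n ≤ m → |((∑ k ∈ range n, f k : ℤ) : ℝ)| ≤ B) (n : ℕ) :
    |((∑ k ∈ range n, f k : ℤ) : ℝ)| ≤ 2 * B := by
  have hB0 : 0 ≤ B := le_trans (abs_nonneg _) (hB 0 (Nat.zero_le _))
  have h1 : n = (n / (2 * m)) * (2 * m) + n % (2 * m) := by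
    have := Nat.div_add_mod n (2 * m)
    rw [mul_comm]
    exact this.symm
  rw [h1, ap_mul f m hf]
  have hlt : n % (2 * m) < 2 * m := Nat.mod_lt _ (by omega)
  generalize n % (2 * m) = j at hlt
  by_cases hj : j ≤ m
  · have := hB j hj
    linarith
  · obtain ⟨i, rfl⟩ : ∃ i, j = m + i := ⟨j - m, by omega⟩
    rw [Finset.sum_range_add]
    have h : ∑ x ∈ range i, f (m + x) = -∑ x ∈ range i, f x := by
      rw [← Finset.sum_neg_distrib]
      apply Finset.sum_congr rfl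
      intro x _
      rw [add_comm m x, hf]
    rw [h]
    have a1 := hB m le_rfl
    have a2 := hB i (by omega)
    push_cast at a1 a2 ⊢
    rw [abs_le] at a1 a2 ⊢
    constructor <;> linarith [a1.1, a1.2, a2.1, a2.2]

private theorem anti_add_mul (L r : ℕ) (hL : 1 ≤ L) (A ε : ℕ → ℤ) (t w : ℕ) :
    anti L r A ε (t + w * (2 ^ r * L)) = (-1) ^ w * anti L r A ε t := by
  induction w with
  | zero => simp
  | succ w ih =>
    rw [show t + (w + 1) * (2 ^ r * L) = (t + w * (2 ^ r * L)) + 2 ^ r * L by ring,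
      anti_add L r hL, ih]
    ring

private theorem exists_start (d M a : ℕ) (hd : 1 ≤ d) (hM : 1 ≤ M) :
    ∃ k0 w : ℕ, a % Nat.gcd d M + k0 * d = a + w * M := by
  have hg := Nat.gcd_eq_gcd_ab d M
  set x := Nat.gcdA d M with hx
  set y := Nat.gcdB d M with hy
  set g := Nat.gcd d M with hgdef
  set t := a / g with ht
  have hac : (a : ℤ) = ((a % g : ℕ) : ℤ) + (g : ℤ) * (t : ℤ) := by
    have := Nat.mod_add_div a g
    exact_mod_cast this.symm
  set K : ℤ := |(t : ℤ) * x| + |(t : ℤ) * y| with hK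
  have hK0 : 0 ≤ K := by positivity
  have hM' : (1 : ℤ) ≤ (M : ℤ) := by exact_mod_cast hM
  have hd' : (1 : ℤ) ≤ (d : ℤ) := by exact_mod_cast hd
  have h1 : 0 ≤ (t : ℤ) * x + K * M := by
    have e1 : -|(t : ℤ) * x| ≤ (t : ℤ) * x := neg_abs_le _
    have e2 : K ≤ K * M := by nlinarith
    have e3 : 0 ≤ |(t : ℤ) * y| := abs_nonneg _
    linarith
  have h2 : 0 ≤ K * d - (t : ℤ) * y := by
    have e1 : (t : ℤ) * y ≤ |(t : ℤ) * y| := le_abs_self _
    have e2 : K ≤ K * d := by nlinarith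
    have e3 : 0 ≤ |(t : ℤ) * x| := abs_nonneg _
    linarith
  obtain ⟨k0, hk0⟩ := Int.eq_ofNat_of_zero_le h1
  obtain ⟨w, hw⟩ := Int.eq_ofNat_of_zero_le h2
  refine ⟨k0, w, ?_⟩
  have : ((a % g : ℕ) : ℤ) + (k0 : ℤ) * d = a + (w : ℤ) * M := by
    rw [← hk0, ← hw, hac]
    linear_combination (-(t : ℤ)) * hg
  exact_mod_cast this

/-- all progressions are controlled by the initial segments starting below the gcd -/
theorem anti_reduce (L r : ℕ) (hL : 1 ≤ L) (A ε : ℕ → ℤ) (d : ℕ) (hd : 1 ≤ d) (hd2 : d ≤ 2 ^ r)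
    (B : ℝ) (hB : ∀ c n, c < Nat.gcd d (2 ^ r * L) → n ≤ 2 ^ r * L / Nat.gcd d (2 ^ r * L) →
      |((∑ k ∈ range n, anti L r A ε (c + k * d) : ℤ) : ℝ)| ≤ B) (a n : ℕ) :
    |((∑ k ∈ range n, anti L r A ε (a + k * d) : ℤ) : ℝ)| ≤ 4 * B := by
  have hM : 1 ≤ 2 ^ r * L := Nat.succ_le_of_lt (by positivity)
  have hg : 0 < Nat.gcd d (2 ^ r * L) := Nat.gcd_pos_of_pos_left _ hd
  have hn0 : 1 ≤ 2 ^ r * L / Nat.gcd d (2 ^ r * L) :=
    (Nat.one_le_div_iff hg).2 (Nat.le_of_dvd hM (Nat.gcd_dvd_right _ _))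
  obtain ⟨k0, w, hkw⟩ := exists_start d (2 ^ r * L) a hd hM
  have hlt : a % Nat.gcd d (2 ^ r * L) < Nat.gcd d (2 ^ r * L) := Nat.mod_lt _ hg
  generalize hc : a % Nat.gcd d (2 ^ r * L) = c at hkw hlt
  have hf : ∀ k, anti L r A ε (c + (k + 2 ^ r * L / Nat.gcd d (2 ^ r * L)) * d)
      = -anti L r A ε (c + k * d) := by
    intro k
    rw [show c + (k + 2 ^ r * L / Nat.gcd d (2 ^ r * L)) * d
      = (c + k * d) + (2 ^ r * L / Nat.gcd d (2 ^ r * L)) * d by ring]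
    exact anti_steps L r hL A ε d hd hd2 _
  have key := ap_bound (fun k => anti L r A ε (c + k * d)) _ hn0 hf B (fun n hn => hB c n hlt hn)
  have k1 := key k0
  have k2 := key (k0 + n)
  have e1 : ∑ k ∈ range (k0 + n), anti L r A ε (c + k * d)
      = ∑ k ∈ range k0, anti L r A ε (c + k * d)
        + (-1) ^ w * ∑ k ∈ range n, anti L r A ε (a + k * d) := by
    rw [Finset.sum_range_add, Finset.mul_sum]
    congr 1
    apply Finset.sum_congr rfl
    intro k _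
    rw [← anti_add_mul L r hL]
    congr 1
    linarith
  rw [e1] at k2
  push_cast at k1 k2 ⊢
  rcases neg_one_pow_eq_or ℝ w with hw | hw
  · rw [hw] at k2
    rw [abs_le] at k1 k2 ⊢
    constructor <;> linarith [k1.1, k1.2, k2.1, k2.2]
  · rw [hw] at k2
    rw [abs_le] at k1 k2 ⊢
    constructor <;> linarith [k1.1, k1.2, k2.1, k2.2]

/-- the sum over `2 * M` consecutive steps vanishes -/
theorem anti_zero (L r : ℕ) (hL : 1 ≤ L) (A ε : ℕ → ℤ) (d : ℕ) (hd : 1 ≤ d) (hd2 : d ≤ 2 ^ r)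
    (a w : ℕ) :
    ∑ k ∈ range (w * (2 * (2 ^ r * L))), anti L r A ε (a + k * d) = 0 := by
  have hM : 1 ≤ 2 ^ r * L := Nat.succ_le_of_lt (by positivity)
  have hf : ∀ k, anti L r A ε (a + (k + 2 ^ r * L / Nat.gcd d (2 ^ r * L)) * d)
      = -anti L r A ε (a + k * d) := by
    intro k
    rw [show a + (k + 2 ^ r * L / Nat.gcd d (2 ^ r * L)) * d
      = (a + k * d) + (2 ^ r * L / Nat.gcd d (2 ^ r * L)) * d by ring]
    exact anti_steps L r hL A ε d hd hd2 _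
  have h := ap_mul (fun k => anti L r A ε (a + k * d)) _ hf (w * Nat.gcd d (2 ^ r * L)) 0
  have e : w * Nat.gcd d (2 ^ r * L) * (2 * (2 ^ r * L / Nat.gcd d (2 ^ r * L))) + 0
      = w * (2 * (2 ^ r * L)) := by
    have := Nat.div_mul_cancel (Nat.gcd_dvd_right d (2 ^ r * L))
    calc w * Nat.gcd d (2 ^ r * L) * (2 * (2 ^ r * L / Nat.gcd d (2 ^ r * L))) + 0
        = w * (2 * (2 ^ r * L / Nat.gcd d (2 ^ r * L) * Nat.gcd d (2 ^ r * L))) := by ring
      _ = w * (2 * (2 ^ r * L)) := by rw [this]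
  rw [e] at h
  simpa using h

end Pool.Agent.H.MP_02f3ba_co.SS
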