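import Pool.Agent.H.MP_02f3ba_co.SS.Defs

/-!
A large subset of the cube contains two points at distance at least `m / 8`.
-/

namespace Pool.Agent.H.MP_02f3ba_co.SS

private theorem ball_sum {V : Type*} [Fintype V] [DecidableEq V] (x : V → Bool) :
    ∑ y : V → Bool, (1 / 7 : ℝ) ^ (Finset.univ.filter fun v => x v ≠ y v).card =
      (8 / 7) ^ Fintype.card V := by
  have h1 : ∀ y : V → Bool, (1 / 7 : ℝ) ^ (Finset.univ.filter fun v => x v ≠ y v).card =
      ∏ v, (if x v ≠ y v then (1 / 7 : ℝ) else 1) := by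
    intro y
    rw [Finset.prod_ite, Finset.prod_const, Finset.prod_const_one, mul_one]
  have h2 := Finset.prod_univ_sum (fun _ : V => (Finset.univ : Finset Bool))
    (fun v b => if x v ≠ b then (1 / 7 : ℝ) else 1)
  rw [Fintype.piFinset_univ] at h2
  have h3 : ∀ v, ∑ b : Bool, (if x v ≠ b then (1 / 7 : ℝ) else 1) = 8 / 7 := by
    intro v
    cases x v <;> simp <;> norm_num
  rw [Finset.sum_congr rfl fun y _ => h1 y, ← h2, Finset.prod_congr rfl fun v _ => h3 v,
    Finset.prod_const, Finset.card_univ]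

theorem ball {V : Type*} [Fintype V] [DecidableEq V] (hm : 1 ≤ Fintype.card V)
    (A : Finset (V → Bool))
    (hA : Real.exp (-((Fintype.card V : ℝ) / 8)) * 2 ^ Fintype.card V ≤ (A.card : ℝ)) :
    ∃ x ∈ A, ∃ y ∈ A, (Fintype.card V : ℝ) / 8 ≤
      ((Finset.univ.filter fun v => x v ≠ y v).card : ℝ) := by
  have hApos : 0 < (A.card : ℝ) := lt_of_lt_of_le (by positivity) hA
  obtain ⟨x, hx⟩ := Finset.card_pos.1 (by exact_mod_cast hApos)
  by_contra hcon
  push Not at hcon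
  have hall := hcon x hx
  have h1 : (A.card : ℝ) * (1 / 7 : ℝ) ^ ((Fintype.card V : ℝ) / 8) ≤ (8 / 7) ^ Fintype.card V := by
    rw [← ball_sum x]
    calc (A.card : ℝ) * (1 / 7 : ℝ) ^ ((Fintype.card V : ℝ) / 8)
        = ∑ _y ∈ A, (1 / 7 : ℝ) ^ ((Fintype.card V : ℝ) / 8) := by
          rw [Finset.sum_const, nsmul_eq_mul]
      _ ≤ ∑ y ∈ A, (1 / 7 : ℝ) ^ (Finset.univ.filter fun v => x v ≠ y v).card := by
          refine Finset.sum_le_sum fun y hy => ?_
          rw [← Real.rpow_natCast]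
          exact Real.rpow_le_rpow_of_exponent_ge (by norm_num) (by norm_num) (hall y hy).le
      _ ≤ ∑ y : V → Bool, (1 / 7 : ℝ) ^ (Finset.univ.filter fun v => x v ≠ y v).card :=
          Finset.sum_le_sum_of_subset_of_nonneg (Finset.subset_univ _)
            fun y _ _ => by positivity
  have h7 : (1 / 7 : ℝ) ^ ((Fintype.card V : ℝ) / 8) = ((1 / 7 : ℝ) ^ (1 / 8 : ℝ)) ^ Fintype.card V := by
    rw [← Real.rpow_natCast, ← Real.rpow_mul (by norm_num)]
    congr 1
    ring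
  have h8 : (3 / 4 : ℝ) ≤ (1 / 7 : ℝ) ^ (1 / 8 : ℝ) := by
    have h9 : (3 / 4 : ℝ) = ((3 / 4 : ℝ) ^ (8 : ℕ)) ^ (1 / 8 : ℝ) := by
      rw [← Real.rpow_natCast, ← Real.rpow_mul (by norm_num)]
      norm_num
    rw [h9]
    exact Real.rpow_le_rpow (by norm_num) (by norm_num) (by norm_num)
  have h10 : (7 / 8 : ℝ) ≤ Real.exp (-(1 / 8)) := by
    have := Real.add_one_le_exp (-(1 / 8) : ℝ)
    linarith
  have h11 : Real.exp (-((Fintype.card V : ℝ) / 8)) = Real.exp (-(1 / 8)) ^ Fintype.card V := by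
    rw [← Real.exp_nat_mul]
    congr 1
    ring
  have h12 : (7 / 8 : ℝ) ^ Fintype.card V ≤ Real.exp (-((Fintype.card V : ℝ) / 8)) := by
    rw [h11]
    exact pow_le_pow_left₀ (by norm_num) h10 _
  have h13 : (3 / 4 : ℝ) ^ Fintype.card V ≤ (1 / 7 : ℝ) ^ ((Fintype.card V : ℝ) / 8) := by
    rw [h7]
    exact pow_le_pow_left₀ (by norm_num) h8 _
  have h14 : (7 / 8 : ℝ) ^ Fintype.card V * 2 ^ Fintype.card V * (3 / 4) ^ Fintype.card V ≤
      (8 / 7) ^ Fintype.card V := by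
    refine le_trans ?_ h1
    refine mul_le_mul (le_trans ?_ hA) h13 (by positivity) (by positivity)
    exact mul_le_mul_of_nonneg_right h12 (by positivity)
  rw [← mul_pow, ← mul_pow] at h14
  have h15 : (8 / 7 : ℝ) ^ Fintype.card V < (7 / 8 * 2 * (3 / 4)) ^ Fintype.card V :=
    pow_lt_pow_left₀ (by norm_num) (by norm_num) (by omega)
  linarith

end Pool.Agent.H.MP_02f3ba_co.SS
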