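import Pool.Agent.H.MP_02f3ba_co.SS.Defs

/-!
Concatenations of copies of a block, up to sign.
-/

namespace Pool.Agent.H.MP_02f3ba_co.SS

open Finset

/-- `f` is a concatenation of copies of `A` on `[0, L)`, up to sign, the first copy being
unchanged -/
def Blocks (L : ℕ) (A f : ℕ → ℤ) : Prop :=
  (∀ t, t < L → f t = A t) ∧
  ∀ b : ℕ, ∃ s : ℤ, (s = 1 ∨ s = -1) ∧ ∀ t, t < L → f (b * L + t) = s * A t

theorem blocks_anti (L r : ℕ) (hL : 1 ≤ L) (A ε : ℕ → ℤ) (hε : ∀ n, ε n = 1 ∨ ε n = -1)
    (h0 : ε 0 = 1) : Blocks L A (anti L r A ε) := by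
  have hdiv : ∀ b t : ℕ, t < L → (b * L + t) / L = b := by
    intro b t ht
    rw [Nat.add_comm, Nat.add_mul_div_right _ _ (by omega), Nat.div_eq_of_lt ht, zero_add]
  have hmod : ∀ b t : ℕ, t < L → (b * L + t) % L = t := by
    intro b t ht
    rw [Nat.add_comm, Nat.add_mul_mod_self_right, Nat.mod_eq_of_lt ht]
  have key : ∀ b t : ℕ, t < L →
      anti L r A ε (b * L + t) = ((-1) ^ (b / 2 ^ r) * ε (b % 2 ^ r)) * A t := by
    intro b t ht
    have h1 : (b * L + t) / (2 ^ r * L) = b / 2 ^ r := by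
      rw [Nat.mul_comm (2 ^ r) L, ← Nat.div_div_eq_div_mul, hdiv b t ht]
    have h2 : (b * L + t) % (2 ^ r * L) / L = b % 2 ^ r := by
      rw [Nat.mod_mul_left_div_self, hdiv b t ht]
    unfold anti
    rw [h1, h2, hmod b t ht]
    ring
  refine ⟨?_, ?_⟩
  · intro t ht
    have h := key 0 t ht
    rw [Nat.zero_mul, Nat.zero_add] at h
    rw [h, Nat.zero_div, Nat.zero_mod, h0]
    ring
  · intro b
    refine ⟨(-1) ^ (b / 2 ^ r) * ε (b % 2 ^ r), ?_, fun t ht => key b t ht⟩
    rcases neg_one_pow_eq_or ℤ (b / 2 ^ r) with h | h <;> rcases hε (b % 2 ^ r) with h' | h' <;>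
      rw [h, h'] <;> norm_num

theorem blocks_trans (L L' : ℕ) (hL : 1 ≤ L) (hL' : 1 ≤ L') (hd : L ∣ L') (A A' f : ℕ → ℤ)
    (h1 : Blocks L A A') (h2 : Blocks L' A' f) : Blocks L A f := by
  obtain ⟨q, rfl⟩ := hd
  have hq : 1 ≤ q := by
    rcases Nat.eq_zero_or_pos q with h | h
    · rw [h, Nat.mul_zero] at hL'
      omega
    · exact h
  refine ⟨?_, ?_⟩
  · intro t ht
    have hlt : t < L * q := lt_of_lt_of_le ht (Nat.le_mul_of_pos_right L hq)
    rw [h2.1 t hlt, h1.1 t ht]
  · intro b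
    obtain ⟨s', hs', hf'⟩ := h2.2 (b / q)
    obtain ⟨s, hs, hf⟩ := h1.2 (b % q)
    refine ⟨s' * s, ?_, ?_⟩
    · rcases hs with h | h <;> rcases hs' with h' | h' <;> rw [h, h'] <;> norm_num
    · intro t ht
      have hbq : b % q < q := Nat.mod_lt b hq
      have hlt : b % q * L + t < L * q := by
        have h3 : (b % q + 1) * L ≤ q * L := Nat.mul_le_mul_right L hbq
        have h4 : (b % q + 1) * L = b % q * L + L := by ring
        have h5 : q * L = L * q := Nat.mul_comm q L
        omega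
      have heq : b * L + t = b / q * (L * q) + (b % q * L + t) := by
        have h6 := Nat.div_add_mod b q
        calc b * L + t = (q * (b / q) + b % q) * L + t := by rw [h6]
          _ = b / q * (L * q) + (b % q * L + t) := by ring
      rw [heq, hf' _ hlt, hf t ht]
      ring

/-- if all class sums of the block vanish, progression sums of a concatenation are at most twice
those of the block -/
theorem blocks_sum (L : ℕ) (hL : 1 ≤ L) (A f : ℕ → ℤ) (h : Blocks L A f) (d : ℕ) (hd : 1 ≤ d)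
    (hdL : d ∣ L) (B : ℝ)
    (h0 : ∀ c, c < d → ∑ k ∈ range (L / d), A (c + k * d) = 0)
    (hB : ∀ c n, c < d → n ≤ L / d → |((∑ k ∈ range n, A (c + k * d) : ℤ) : ℝ)| ≤ B) (a n : ℕ) :
    |((∑ k ∈ range n, f (a + k * d) : ℤ) : ℝ)| ≤ 2 * B := by
  obtain ⟨P, rfl⟩ := hdL
  have hP : 1 ≤ P := by
    rcases Nat.eq_zero_or_pos P with h' | h'
    · rw [h', Nat.mul_zero] at hL
      omega
    · exact h'
  have hPd : d * P / d = P := Nat.mul_div_cancel_left P (by omega)
  rw [hPd] at h0 hB
  set c := a % d with hc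
  have hcd : c < d := Nat.mod_lt a (by omega)
  -- the block identity
  have hblk : ∀ b : ℕ, ∃ s : ℤ, (s = 1 ∨ s = -1) ∧ ∀ k, k < P →
      f (c + (b * P + k) * d) = s * A (c + k * d) := by
    intro b
    obtain ⟨s, hs, hf⟩ := h.2 b
    refine ⟨s, hs, fun k hk => ?_⟩
    have hlt : c + k * d < d * P := by
      have h3 : (k + 1) * d ≤ P * d := Nat.mul_le_mul_right d hk
      have h4 : (k + 1) * d = k * d + d := by ring
      have h5 : P * d = d * P := Nat.mul_comm P d
      omega
    have heq : c + (b * P + k) * d = b * (d * P) + (c + k * d) := by ring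
    rw [heq, hf _ hlt]
  have hzero : ∀ b : ℕ, ∑ k ∈ range (b * P), f (c + k * d) = 0 := by
    intro b
    induction b with
    | zero => simp
    | succ b ih =>
      rw [Nat.succ_mul, Finset.sum_range_add, ih, zero_add]
      obtain ⟨s, _, hf⟩ := hblk b
      rw [Finset.sum_congr rfl (fun k hk => hf k (Finset.mem_range.mp hk)), ← Finset.mul_sum,
        h0 c hcd, mul_zero]
  have hF : ∀ N : ℕ, |((∑ k ∈ range N, f (c + k * d) : ℤ) : ℝ)| ≤ B := by
    intro N
    have hN : N = N / P * P + N % P := by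
      have := Nat.div_add_mod N P
      rw [Nat.mul_comm] at this
      exact this.symm
    have hj : N % P < P := Nat.mod_lt N hP
    obtain ⟨s, hs, hf⟩ := hblk (N / P)
    have hsum : ∑ k ∈ range N, f (c + k * d) = s * ∑ k ∈ range (N % P), A (c + k * d) := by
      conv_lhs => rw [hN]
      rw [Finset.sum_range_add, hzero, zero_add, Finset.mul_sum]
      exact Finset.sum_congr rfl
        (fun k hk => hf k (lt_trans (Finset.mem_range.mp hk) hj))
    rw [hsum, Int.cast_mul, abs_mul]
    have habs : |(s : ℝ)| = 1 := by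
      rcases hs with h' | h' <;> rw [h'] <;> norm_num
    rw [habs, one_mul]
    exact hB c (N % P) hcd hj.le
  have ha : a = c + a / d * d := by
    have := Nat.mod_add_div a d
    rw [Nat.mul_comm] at this
    exact this.symm
  have hdiff : ∑ k ∈ range n, f (a + k * d) =
      ∑ k ∈ range (a / d + n), f (c + k * d) - ∑ k ∈ range (a / d), f (c + k * d) := by
    rw [Finset.sum_range_add, add_sub_cancel_left]
    refine Finset.sum_congr rfl fun k _ => ?_
    congr 1
    conv_lhs => rw [ha]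
    ring
  rw [hdiff, Int.cast_sub]
  have e1 := hF (a / d + n)
  have e2 := hF (a / d)
  calc |((∑ k ∈ range (a / d + n), f (c + k * d) : ℤ) : ℝ) -
        ((∑ k ∈ range (a / d), f (c + k * d) : ℤ) : ℝ)|
      ≤ |((∑ k ∈ range (a / d + n), f (c + k * d) : ℤ) : ℝ)| +
        |((∑ k ∈ range (a / d), f (c + k * d) : ℤ) : ℝ)| := abs_sub _ _
    _ ≤ 2 * B := by linarith

end Pool.Agent.H.MP_02f3ba_co.SS
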