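import Pool.Agent.H.MP_02f3ba_co.SS.Hoef

/-!
A cheap code for the rounded value of a Rademacher sum.
-/

namespace Pool.Agent.H.MP_02f3ba_co.SS

private lemma code_Icc (n : ℕ) :
    ∑ k ∈ (Finset.Icc (-(n : ℤ)) n).erase 0, ((1 : ℝ) / 2) ^ (k.natAbs + 1) =
      1 - (1 / 2) ^ n := by
  induction n with
  | zero =>
    have h : (Finset.Icc (-((0 : ℕ) : ℤ)) ((0 : ℕ) : ℤ)).erase 0 = ∅ := by
      ext k
      simp only [Finset.mem_erase, Finset.mem_Icc, Finset.notMem_empty, iff_false]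
      omega
    rw [h]
    simp
  | succ n ih =>
    have h : (Finset.Icc (-((n + 1 : ℕ) : ℤ)) ((n + 1 : ℕ) : ℤ)).erase 0 =
        insert ((n : ℤ) + 1) (insert (-((n : ℤ) + 1)) ((Finset.Icc (-(n : ℤ)) n).erase 0)) := by
      ext k
      simp only [Finset.mem_erase, Finset.mem_Icc, Finset.mem_insert]
      push_cast
      omega
    have h1 : ((n : ℤ) + 1) ∉ insert (-((n : ℤ) + 1)) ((Finset.Icc (-(n : ℤ)) n).erase 0) := by
      simp only [Finset.mem_erase, Finset.mem_Icc, Finset.mem_insert]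
      omega
    have h2 : (-((n : ℤ) + 1)) ∉ (Finset.Icc (-(n : ℤ)) n).erase 0 := by
      simp only [Finset.mem_erase, Finset.mem_Icc]
      omega
    rw [h, Finset.sum_insert h1, Finset.sum_insert h2, ih]
    have e1 : ((n : ℤ) + 1).natAbs = n + 1 := by omega
    have e2 : (-((n : ℤ) + 1)).natAbs = n + 1 := by omega
    rw [e1, e2]
    ring

private lemma code_sum (S : Finset ℤ) (h0 : (0 : ℤ) ∉ S) :
    ∑ k ∈ S, ((1 : ℝ) / 2) ^ (k.natAbs + 1) ≤ 1 := by
  obtain ⟨n, hn⟩ : ∃ n : ℕ, ∀ k ∈ S, k.natAbs ≤ n :=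
    ⟨S.sup Int.natAbs, fun k hk => Finset.le_sup (f := Int.natAbs) hk⟩
  have hsub : S ⊆ (Finset.Icc (-(n : ℤ)) n).erase 0 := by
    intro k hk
    have h1 := hn k hk
    have h2 : k ≠ 0 := fun h => h0 (h ▸ hk)
    simp only [Finset.mem_erase, Finset.mem_Icc]
    omega
  calc ∑ k ∈ S, ((1 : ℝ) / 2) ^ (k.natAbs + 1)
      ≤ ∑ k ∈ (Finset.Icc (-(n : ℤ)) n).erase 0, ((1 : ℝ) / 2) ^ (k.natAbs + 1) :=
        Finset.sum_le_sum_of_subset_of_nonneg hsub fun _ _ _ => by positivity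
    _ = 1 - (1 / 2) ^ n := code_Icc n
    _ ≤ 1 := by
      have : (0 : ℝ) ≤ (1 / 2) ^ n := by positivity
      linarith

private lemma code_cost (x Δ U : ℝ) (hU0 : 0 < U) (hΔ : 0 < Δ) (hΔU : 4 * U ≤ Δ ^ 2)
    (L δ : ℝ) (hL : L = Δ ^ 2 / (4 * U)) (hδ : δ = Real.exp (-L)) (hδ1 : δ < 0.368)
    (q : ℤ → ℝ) (hq0 : q 0 = 1 - δ) (hqk : ∀ k ≠ 0, q k = δ * (1 / 2) ^ (k.natAbs + 1)) :
    -Real.log (q (round (x / (2 * Δ)))) ≤
      1.6 * δ + (L + 2 * Real.log 2) * Real.exp (Δ / U * (|x| - Δ)) := by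
  have hL1 : 1 ≤ L := by
    rw [hL, le_div_iff₀ (by positivity)]
    linarith
  have hδ0 : 0 < δ := by
    rw [hδ]
    exact Real.exp_pos _
  have hlog2 : 0 < Real.log 2 := Real.log_pos (by norm_num)
  by_cases hb : round (x / (2 * Δ)) = 0
  · rw [hb, hq0]
    have h1 : 0 < 1 - δ := by linarith
    have h2 := Real.one_sub_inv_le_log_of_pos h1
    have h3 : (1 - δ)⁻¹ - 1 ≤ 1.6 * δ := by
      have e : (1 - δ)⁻¹ - 1 = δ / (1 - δ) := by
        field_simp
        ring
      rw [e, div_le_iff₀ h1]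
      nlinarith
    have h4 : 0 ≤ (L + 2 * Real.log 2) * Real.exp (Δ / U * (|x| - Δ)) := by positivity
    linarith
  · rw [hqk _ hb]
    set b : ℤ := round (x / (2 * Δ)) with hbdef
    set y : ℝ := x / (2 * Δ) with hy
    set u : ℝ := |x| / Δ with hu
    have hyu : |y| = u / 2 := by
      rw [hy, hu, abs_div, abs_of_pos (by positivity : (0 : ℝ) < 2 * Δ)]
      field_simp
    have hy2 : 1 / 2 ≤ |y| := by
      by_contra hcon
      push Not at hcon
      apply hb
      rw [hbdef, round_eq_zero_iff]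
      rw [abs_lt] at hcon
      constructor
      · linarith [hcon.1]
      · linarith [hcon.2]
    have hu1 : 1 ≤ u := by linarith
    have hbu : (b.natAbs : ℝ) ≤ u / 2 + 1 / 2 := by
      have h1 := abs_sub_round y
      have h2 : (b.natAbs : ℝ) = |(b : ℝ)| := by
        rw [Nat.cast_natAbs, Int.cast_abs]
      rw [h2]
      calc |(b : ℝ)| = |y - (y - b)| := by rw [sub_sub_cancel]
        _ ≤ |y| + |y - b| := abs_sub _ _
        _ ≤ u / 2 + 1 / 2 := by
          rw [hyu]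
          linarith
    have hlog : -Real.log (δ * (1 / 2) ^ (b.natAbs + 1)) = L + (b.natAbs + 1) * Real.log 2 := by
      rw [Real.log_mul hδ0.ne' (by positivity), Real.log_pow, hδ, Real.log_exp,
        Real.log_div one_ne_zero two_ne_zero, Real.log_one]
      push_cast
      ring
    rw [hlog]
    have hu2 : u ≤ u ^ 2 := by nlinarith
    have h5 : L + (b.natAbs + 1) * Real.log 2 ≤ (L + 2 * Real.log 2) * u ^ 2 := by
      have h6 : ((b.natAbs : ℝ) + 1) ≤ 2 * u ^ 2 := by nlinarith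
      have h7 : ((b.natAbs : ℝ) + 1) * Real.log 2 ≤ 2 * u ^ 2 * Real.log 2 :=
        mul_le_mul_of_nonneg_right h6 hlog2.le
      nlinarith
    have h8 : u ^ 2 ≤ Real.exp (Δ / U * (|x| - Δ)) := by
      have h9 : u ≤ Real.exp (u - 1) := by
        have := Real.add_one_le_exp (u - 1)
        linarith
      have h10 : Δ / U * (|x| - Δ) = 4 * L * (u - 1) := by
        rw [hL, hu]
        field_simp
      rw [h10]
      calc u ^ 2 ≤ Real.exp (u - 1) ^ 2 := by
            exact pow_le_pow_left₀ (by linarith) h9 2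
        _ = Real.exp (2 * (u - 1)) := by
            rw [← Real.exp_nat_mul]
            norm_num
        _ ≤ Real.exp (4 * L * (u - 1)) := by
            apply Real.exp_le_exp.2
            nlinarith
    have h11 : (L + 2 * Real.log 2) * u ^ 2 ≤
        (L + 2 * Real.log 2) * Real.exp (Δ / U * (|x| - Δ)) :=
      mul_le_mul_of_nonneg_left h8 (by positivity)
    have h12 : 0 ≤ 1.6 * δ := by positivity
    linarith

theorem code {V : Type*} [Fintype V] [DecidableEq V] (v : V → ℝ) (Δ U : ℝ) (hU0 : 0 < U)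
    (hU : ∑ y, v y ^ 2 ≤ U) (hΔ : 0 < Δ) (hΔU : 4 * U ≤ Δ ^ 2) :
    ∃ q : ℤ → ℝ, (∀ k, 0 < q k) ∧ (∀ T : Finset ℤ, ∑ k ∈ T, q k ≤ 1) ∧
      ∑ ω : V → Bool, -Real.log (q (round ((∑ y, v y * sg (ω y)) / (2 * Δ)))) ≤
        4 * Real.exp (-(Δ ^ 2 / (4 * U))) * 2 ^ Fintype.card V := by
  obtain ⟨L, hL⟩ : ∃ L, L = Δ ^ 2 / (4 * U) := ⟨_, rfl⟩
  obtain ⟨δ, hδ⟩ : ∃ δ, δ = Real.exp (-L) := ⟨_, rfl⟩
  have hL1 : 1 ≤ L := by
    rw [hL, le_div_iff₀ (by positivity)]
    linarith
  have he1 : Real.exp (-1) < 0.368 := by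
    have := Real.exp_neg_one_lt_d9
    norm_num at this ⊢
    linarith
  have hδ0 : 0 < δ := by
    rw [hδ]
    exact Real.exp_pos _
  have hδ1 : δ < 0.368 := by
    have : δ ≤ Real.exp (-1) := by
      rw [hδ]
      exact Real.exp_le_exp.2 (by linarith)
    linarith
  have hLδ : L * δ ≤ 0.368 := by
    have h1 := Real.add_one_le_exp (L - 1)
    have h2 : L * δ ≤ Real.exp (L - 1) * δ :=
      mul_le_mul_of_nonneg_right (by linarith) hδ0.le
    have h3 : Real.exp (L - 1) * δ = Real.exp (-1) := by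
      rw [hδ, ← Real.exp_add]
      congr 1
      ring
    linarith
  classical
  set q : ℤ → ℝ := fun k => if k = 0 then 1 - δ else δ * (1 / 2) ^ (k.natAbs + 1) with hq
  have hq0 : q 0 = 1 - δ := by simp [hq]
  have hqk : ∀ k ≠ 0, q k = δ * (1 / 2) ^ (k.natAbs + 1) := by
    intro k hk
    simp [hq, hk]
  refine ⟨q, ?_, ?_, ?_⟩
  · intro k
    by_cases hk : k = 0
    · rw [hk, hq0]
      linarith
    · rw [hqk k hk]
      positivity
  · intro T
    have h1 : ∑ k ∈ T.erase 0, q k ≤ δ := by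
      have h2 : ∑ k ∈ T.erase 0, q k = δ * ∑ k ∈ T.erase 0, ((1 : ℝ) / 2) ^ (k.natAbs + 1) := by
        rw [Finset.mul_sum]
        exact Finset.sum_congr rfl fun k hk => hqk k (Finset.ne_of_mem_erase hk)
      rw [h2]
      have h3 := code_sum (T.erase 0) (Finset.notMem_erase 0 T)
      nlinarith
    by_cases h0 : (0 : ℤ) ∈ T
    · rw [← Finset.add_sum_erase T q h0, hq0]
      linarith
    · rw [Finset.erase_eq_of_notMem h0] at h1
      linarith
  · have hlog2 : 0 < Real.log 2 := Real.log_pos (by norm_num)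
    have hlog2' : Real.log 2 < 0.6932 := by
      have := Real.log_two_lt_d9
      norm_num at this ⊢
      linarith
    have hcost : ∀ ω : V → Bool,
        -Real.log (q (round ((∑ y, v y * sg (ω y)) / (2 * Δ)))) ≤
          1.6 * δ + (L + 2 * Real.log 2) * (Real.exp (-(4 * L)) *
            Real.exp (Δ / U * |∑ y, v y * sg (ω y)|)) := by
      intro ω
      have h := code_cost (∑ y, v y * sg (ω y)) Δ U hU0 hΔ hΔU L δ hL hδ hδ1 q hq0 hqk
      have e : Real.exp (Δ / U * (|∑ y, v y * sg (ω y)| - Δ)) =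
          Real.exp (-(4 * L)) * Real.exp (Δ / U * |∑ y, v y * sg (ω y)|) := by
        rw [← Real.exp_add]
        congr 1
        rw [hL]
        field_simp
        ring
      rwa [e] at h
    have hsum := Finset.sum_le_sum fun ω (_ : ω ∈ (Finset.univ : Finset (V → Bool))) => hcost ω
    have hcard : (Finset.univ : Finset (V → Bool)).card = 2 ^ Fintype.card V := by
      rw [Finset.card_univ, Fintype.card_fun, Fintype.card_bool]
    have hh := hoef v (Δ / U) U hU
    have e2 : ∑ ω : V → Bool, (1.6 * δ + (L + 2 * Real.log 2) * (Real.exp (-(4 * L)) *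
        Real.exp (Δ / U * |∑ y, v y * sg (ω y)|))) =
        2 ^ Fintype.card V * (1.6 * δ) + (L + 2 * Real.log 2) * (Real.exp (-(4 * L)) *
          ∑ ω : V → Bool, Real.exp (Δ / U * |∑ y, v y * sg (ω y)|)) := by
      rw [Finset.sum_add_distrib, Finset.sum_const, hcard, nsmul_eq_mul, ← Finset.mul_sum,
        ← Finset.mul_sum]
      push_cast
      ring
    rw [e2] at hsum
    have hP : (0 : ℝ) < 2 ^ Fintype.card V := by positivity
    have h4 : Real.exp (-(4 * L)) * ∑ ω : V → Bool, Real.exp (Δ / U * |∑ y, v y * sg (ω y)|) ≤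
        2 * 2 ^ Fintype.card V * δ ^ 2 := by
      calc Real.exp (-(4 * L)) * ∑ ω : V → Bool, Real.exp (Δ / U * |∑ y, v y * sg (ω y)|)
          ≤ Real.exp (-(4 * L)) * (2 * 2 ^ Fintype.card V *
              Real.exp ((Δ / U) ^ 2 * U / 2)) :=
            mul_le_mul_of_nonneg_left hh (Real.exp_pos _).le
        _ = 2 * 2 ^ Fintype.card V *
              (Real.exp (-(4 * L)) * Real.exp ((Δ / U) ^ 2 * U / 2)) := by ring
        _ = 2 * 2 ^ Fintype.card V * δ ^ 2 := by
            rw [← Real.exp_add, hδ, ← Real.exp_nat_mul]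
            congr 2
            rw [hL]
            field_simp
            ring
    have h5 : (L + 2 * Real.log 2) * (Real.exp (-(4 * L)) *
        ∑ ω : V → Bool, Real.exp (Δ / U * |∑ y, v y * sg (ω y)|)) ≤
        (L + 2 * Real.log 2) * (2 * 2 ^ Fintype.card V * δ ^ 2) :=
      mul_le_mul_of_nonneg_left h4 (by positivity)
    have h6 : (L + 2 * Real.log 2) * δ ≤ 0.9 := by nlinarith
    have h7 : (L + 2 * Real.log 2) * (2 * 2 ^ Fintype.card V * δ ^ 2) ≤
        1.8 * δ * 2 ^ Fintype.card V := by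
      have e3 : (L + 2 * Real.log 2) * (2 * 2 ^ Fintype.card V * δ ^ 2) =
          ((L + 2 * Real.log 2) * δ) * (2 * 2 ^ Fintype.card V * δ) := by ring
      rw [e3]
      have h8 : (0 : ℝ) ≤ 2 * 2 ^ Fintype.card V * δ := by positivity
      nlinarith [mul_le_mul_of_nonneg_right h6 h8]
    rw [← hL, ← hδ]
    have h9 : 0 < δ * 2 ^ Fintype.card V := by positivity
    nlinarith

end Pool.Agent.H.MP_02f3ba_co.SS
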