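import Pool.Agent.H.MP_02f3ba_co.SS.Defs

/-!
Number of canonical intervals of a level.
-/

namespace Pool.Agent.H.MP_02f3ba_co.SS

open Finset

private theorem count_aux (D M i : ℕ) (hM : 1 ≤ M) (N : ℕ) :
    (((Icc 1 D ×ˢ range N ×ˢ range (N + 1)).filter
      fun s : ℕ × ℕ × ℕ => s.2.1 < Nat.gcd s.1 M ∧
        (s.2.2 + 1) * 2 ^ i ≤ M / Nat.gcd s.1 M).card) * 2 ^ i ≤ D * M := by
  classical
  have hsub : ((Icc 1 D ×ˢ range N ×ˢ range (N + 1)).filter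
      fun s : ℕ × ℕ × ℕ => s.2.1 < Nat.gcd s.1 M ∧
        (s.2.2 + 1) * 2 ^ i ≤ M / Nat.gcd s.1 M) ⊆
      (Icc 1 D).biUnion fun d =>
        ({d} : Finset ℕ) ×ˢ range (Nat.gcd d M) ×ˢ range (M / Nat.gcd d M / 2 ^ i) := by
    rintro ⟨d, c, j⟩ hs
    simp only [mem_filter, mem_product, mem_Icc, mem_range] at hs
    obtain ⟨⟨hd, _, _⟩, h1, h2⟩ := hs
    simp only [mem_biUnion, mem_product, mem_singleton, mem_range, mem_Icc]
    refine ⟨d, hd, rfl, h1, ?_⟩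
    have : j + 1 ≤ M / Nat.gcd d M / 2 ^ i := by
      rw [Nat.le_div_iff_mul_le (by positivity)]
      exact h2
    omega
  have hcard := (card_le_card hsub).trans card_biUnion_le
  calc _ ≤ (∑ d ∈ Icc 1 D, (({d} : Finset ℕ) ×ˢ range (Nat.gcd d M) ×ˢ
        range (M / Nat.gcd d M / 2 ^ i)).card) * 2 ^ i := Nat.mul_le_mul_right _ hcard
    _ = ∑ d ∈ Icc 1 D, (Nat.gcd d M * (M / Nat.gcd d M / 2 ^ i)) * 2 ^ i := by
        rw [Finset.sum_mul]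
        refine Finset.sum_congr rfl fun d _ => ?_
        simp [card_product]
    _ ≤ ∑ d ∈ Icc 1 D, M := by
        refine Finset.sum_le_sum fun d _ => ?_
        calc Nat.gcd d M * (M / Nat.gcd d M / 2 ^ i) * 2 ^ i
            = Nat.gcd d M * ((M / Nat.gcd d M / 2 ^ i) * 2 ^ i) := by ring
          _ ≤ Nat.gcd d M * (M / Nat.gcd d M) :=
              Nat.mul_le_mul_left _ (Nat.div_mul_le_self _ _)
          _ ≤ M := Nat.mul_div_le _ _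
    _ = D * M := by simp

theorem count_vecs (L r i : ℕ) (hL : 1 ≤ L) :
    (((Icc 1 (2 ^ r) ×ˢ range (2 ^ r * L) ×ˢ range (2 ^ r * L + 1)).filter
      fun s : ℕ × ℕ × ℕ => s.2.1 < Nat.gcd s.1 (2 ^ r * L) ∧
        (s.2.2 + 1) * 2 ^ i ≤ 2 ^ r * L / Nat.gcd s.1 (2 ^ r * L)).card : ℝ) * 2 ^ i ≤
      (L : ℝ) * 4 ^ r := by
  have hM : 1 ≤ 2 ^ r * L := Nat.mul_pos (by positivity) hL
  have h := count_aux (2 ^ r) (2 ^ r * L) i hM (2 ^ r * L)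
  have h2 : ((((Icc 1 (2 ^ r) ×ˢ range (2 ^ r * L) ×ˢ range (2 ^ r * L + 1)).filter
      fun s : ℕ × ℕ × ℕ => s.2.1 < Nat.gcd s.1 (2 ^ r * L) ∧
        (s.2.2 + 1) * 2 ^ i ≤ 2 ^ r * L / Nat.gcd s.1 (2 ^ r * L)).card * 2 ^ i : ℕ) : ℝ) ≤
      ((2 ^ r * (2 ^ r * L) : ℕ) : ℝ) := by exact_mod_cast h
  have h3 : ((2 ^ r * (2 ^ r * L) : ℕ) : ℝ) = (L : ℝ) * 4 ^ r := by
    push_cast
    have : (4 : ℝ) ^ r = 2 ^ r * 2 ^ r := by
      rw [← mul_pow]; norm_num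
    rw [this]; ring
  rw [h3] at h2
  push_cast at h2
  exact h2

end Pool.Agent.H.MP_02f3ba_co.SS
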