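import Pool.Agent.H.MP_02f3ba_co.SS.Defs

/-!
Cross entropy pigeonhole.
-/

namespace Pool.Agent.H.MP_02f3ba_co.SS

private theorem Cross_sum {Ω ι : Type*} [Fintype Ω] [DecidableEq Ω] (S : Finset ι)
    (b : ι → Ω → ℤ) (q : ι → ℤ → ℝ) (hq : ∀ s ∈ S, ∀ k, 0 < q s k)
    (hq1 : ∀ s ∈ S, ∀ T : Finset ℤ, ∑ k ∈ T, q s k ≤ 1) (n : Ω → ℝ)
    (hn : ∀ ω, n ω = ((Finset.univ.filter fun ω' =>
      (fun s : S => b s ω') = fun s : S => b s ω).card : ℝ)) :
    ∑ ω, (∏ s : S, q s (b s ω)) / n ω ≤ 1 := by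
  classical
  let B : Ω → (S → ℤ) := fun ω s => b s ω
  let w : (S → ℤ) → ℝ := fun β => ∏ s : S, q s (β s)
  have hw : ∀ β, 0 ≤ w β := fun β => Finset.prod_nonneg fun s _ => (hq s s.2 _).le
  have h1 : ∑ ω, (∏ s : S, q s (b s ω)) / n ω =
      ∑ β ∈ Finset.univ.image B, ∑ ω ∈ Finset.univ.filter (fun ω => B ω = β),
        (∏ s : S, q s (b s ω)) / n ω :=
    (Finset.sum_fiberwise_of_maps_to (fun ω hω => Finset.mem_image_of_mem B hω) _).symm
  have h2 : ∀ β ∈ Finset.univ.image B, ∑ ω ∈ Finset.univ.filter (fun ω => B ω = β),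
      (∏ s : S, q s (b s ω)) / n ω = w β := by
    intro β hβ
    obtain ⟨ω₁, -, hω₁⟩ := Finset.mem_image.1 hβ
    have h3 : ∀ ω ∈ Finset.univ.filter (fun ω => B ω = β),
        (∏ s : S, q s (b s ω)) / n ω =
          w β / ((Finset.univ.filter (fun ω => B ω = β)).card : ℝ) := by
      intro ω hω
      have hω' : B ω = β := (Finset.mem_filter.1 hω).2
      have h4 : (∏ s : S, q s (b s ω)) = w β := by
        rw [← hω']
      have h5 : n ω = ((Finset.univ.filter (fun ω => B ω = β)).card : ℝ) := by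
        rw [hn, ← hω']
      rw [h4, h5]
    rw [Finset.sum_congr rfl h3, Finset.sum_const, nsmul_eq_mul]
    refine mul_div_cancel₀ _ ?_
    have h6 : 0 < (Finset.univ.filter (fun ω => B ω = β)).card :=
      Finset.card_pos.2 ⟨ω₁, Finset.mem_filter.2 ⟨Finset.mem_univ _, hω₁⟩⟩
    exact_mod_cast h6.ne'
  rw [h1, Finset.sum_congr rfl h2]
  have h7 : Finset.univ.image B ⊆ Fintype.piFinset (fun s : S => Finset.univ.image (b s)) := by
    intro β hβ
    obtain ⟨ω₁, -, rfl⟩ := Finset.mem_image.1 hβ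
    rw [Fintype.mem_piFinset]
    intro s
    exact Finset.mem_image_of_mem _ (Finset.mem_univ _)
  refine (Finset.sum_le_sum_of_subset_of_nonneg h7 fun β _ _ => hw β).trans ?_
  rw [← Finset.prod_univ_sum]
  refine Finset.prod_le_one (fun s _ => Finset.sum_nonneg fun k _ => (hq s s.2 k).le) ?_
  intro s _
  exact hq1 s s.2 _

theorem cross {Ω ι : Type*} [Fintype Ω] [Nonempty Ω] (S : Finset ι)
    (b : ι → Ω → ℤ) (q : ι → ℤ → ℝ) (hq : ∀ s ∈ S, ∀ k, 0 < q s k)
    (hq1 : ∀ s ∈ S, ∀ T : Finset ℤ, ∑ k ∈ T, q s k ≤ 1) (E : ℝ)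
    (hE : ∑ s ∈ S, ∑ ω, -Real.log (q s (b s ω)) ≤ E * Fintype.card Ω) :
    ∃ ω₀, Real.exp (-E) * Fintype.card Ω ≤
      ((Finset.univ.filter fun ω => ∀ s ∈ S, b s ω = b s ω₀).card : ℝ) := by
  classical
  let n : Ω → ℝ := fun ω => ((Finset.univ.filter fun ω' =>
      (fun s : S => b s ω') = fun s : S => b s ω).card : ℝ)
  have hn1 : ∀ ω, n ω = ((Finset.univ.filter fun ω' => ∀ s ∈ S, b s ω' = b s ω).card : ℝ) := by
    intro ω
    show ((Finset.univ.filter fun ω' => (fun s : S => b s ω') = fun s : S => b s ω).card : ℝ) = _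
    congr 2
    ext ω'
    simp only [Finset.mem_filter, Finset.mem_univ, true_and]
    constructor
    · intro h s hs
      exact congrFun h ⟨s, hs⟩
    · intro h
      funext s
      exact h s s.2
  have hnpos : ∀ ω, 0 < n ω := by
    intro ω
    have : 0 < (Finset.univ.filter fun ω' =>
      (fun s : S => b s ω') = fun s : S => b s ω).card :=
      Finset.card_pos.2 ⟨ω, Finset.mem_filter.2 ⟨Finset.mem_univ _, rfl⟩⟩
    exact Nat.cast_pos.2 this
  let W : Ω → ℝ := fun ω => ∏ s : S, q s (b s ω)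
  have hWpos : ∀ ω, 0 < W ω := fun ω => Finset.prod_pos fun s _ => hq s s.2 _
  have hsum : ∑ ω, W ω / n ω ≤ 1 := Cross_sum S b q hq hq1 n fun _ => rfl
  have hc : (0 : ℝ) < Fintype.card Ω := by exact_mod_cast Fintype.card_pos
  have hlog : ∑ ω, Real.log (W ω * Fintype.card Ω / n ω) ≤ 0 := by
    have h1 : ∀ ω ∈ Finset.univ, Real.log (W ω * Fintype.card Ω / n ω) ≤
        Fintype.card Ω * (W ω / n ω) - 1 := by
      intro ω _
      have h2 := Real.log_le_sub_one_of_pos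
        (div_pos (mul_pos (hWpos ω) hc) (hnpos ω) : 0 < W ω * Fintype.card Ω / n ω)
      refine h2.trans (le_of_eq ?_)
      ring
    refine (Finset.sum_le_sum h1).trans ?_
    rw [Finset.sum_sub_distrib, ← Finset.mul_sum]
    simp only [Finset.sum_const, Finset.card_univ, nsmul_eq_mul, mul_one]
    nlinarith
  have hsplit : ∀ ω, Real.log (W ω * Fintype.card Ω / n ω) =
      Real.log (Fintype.card Ω / n ω) + ∑ s ∈ S, Real.log (q s (b s ω)) := by
    intro ω
    have h3 : W ω * Fintype.card Ω / n ω = (Fintype.card Ω / n ω) * W ω := by ring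
    rw [h3, Real.log_mul (div_pos hc (hnpos ω)).ne' (hWpos ω).ne']
    congr 1
    have h8 : Real.log (W ω) = ∑ s : S, Real.log (q s (b s ω)) :=
      Real.log_prod (s := Finset.univ) (f := fun s : S => q s (b s ω))
        fun s _ => (hq s s.2 _).ne'
    rw [h8]
    exact Finset.sum_coe_sort S fun s => Real.log (q s (b s ω))
  have hfin : ∑ ω, Real.log (Fintype.card Ω / n ω) ≤ ∑ _ω : Ω, E := by
    have h4 : ∑ ω, Real.log (Fintype.card Ω / n ω) + ∑ s ∈ S, ∑ ω, Real.log (q s (b s ω)) ≤ 0 := by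
      rw [Finset.sum_comm, ← Finset.sum_add_distrib]
      refine le_trans (le_of_eq (Finset.sum_congr rfl fun ω _ => (hsplit ω).symm)) hlog
    have h5 : ∑ s ∈ S, ∑ ω, -Real.log (q s (b s ω)) =
        -∑ s ∈ S, ∑ ω, Real.log (q s (b s ω)) := by
      simp only [Finset.sum_neg_distrib]
    rw [h5] at hE
    simp only [Finset.sum_const, Finset.card_univ, nsmul_eq_mul]
    linarith
  obtain ⟨ω₀, -, h6⟩ := Finset.exists_le_of_sum_le (Finset.univ_nonempty) hfin
  refine ⟨ω₀, ?_⟩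
  rw [← hn1]
  have h7 : Fintype.card Ω / n ω₀ ≤ Real.exp E :=
    (Real.log_le_iff_le_exp (div_pos hc (hnpos ω₀))).1 h6
  rw [div_le_iff₀ (hnpos ω₀)] at h7
  rw [Real.exp_neg, inv_mul_le_iff₀ (Real.exp_pos E)]
  exact h7

end Pool.Agent.H.MP_02f3ba_co.SS
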