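import Mathlib

/-!
Basic definitions for the single scale theorem: signs of Boolean vectors, the antiperiodic
extension of a block.
-/

namespace Pool.Agent.H.MP_02f3ba_co.SS

/-- the sign of a Boolean -/
def sg (x : Bool) : ℝ := if x then 1 else -1

/-- `anti L r A ε`: with `M = 2 ^ r * L`, the sequence `t ↦ (-1)^(t / M) * A (t % L) * ε ((t % M) / L)`. -/
def anti (L r : ℕ) (A ε : ℕ → ℤ) (t : ℕ) : ℤ :=
  (-1) ^ (t / (2 ^ r * L)) * A (t % L) * ε ((t % (2 ^ r * L)) / L)

end Pool.Agent.H.MP_02f3ba_co.SS
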