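import Pool.Agent.H.MP_02f3ba_co.SS.Defs

/-!
Dyadic decomposition of an initial segment.
-/

namespace Pool.Agent.H.MP_02f3ba_co.SS

open Finset

private theorem Dyad_aux (g : ℕ → ℝ) (E : ℕ → ℝ) (n : ℕ) (hE : ∀ i, 0 ≤ E i)
    (h : ∀ i j, (j + 1) * 2 ^ i ≤ n → |∑ k ∈ Ico (j * 2 ^ i) ((j + 1) * 2 ^ i), g k| ≤ E i)
    (T : ℕ) : ∀ a n' : ℕ, n' < 2 ^ T → a * 2 ^ T + n' ≤ n →
      |∑ k ∈ Ico (a * 2 ^ T) (a * 2 ^ T + n'), g k| ≤ ∑ i ∈ range T, E i := by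
  induction T with
  | zero =>
    intro a n' hn' _
    have : n' = 0 := by simpa using hn'
    subst this
    simp
  | succ T ih =>
    intro a n' hn' hle
    have e1 : a * 2 ^ (T + 1) = (2 * a) * 2 ^ T := by ring
    rw [e1] at hle ⊢
    rw [Finset.sum_range_succ]
    by_cases hc : n' < 2 ^ T
    · have := ih (2 * a) n' hc hle
      linarith [hE T]
    · push Not at hc
      obtain ⟨m, rfl⟩ := Nat.exists_eq_add_of_le hc
      have hm : m < 2 ^ T := by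
        rw [pow_succ] at hn'
        omega
      have e2 : 2 * a * 2 ^ T + (2 ^ T + m) = (2 * a + 1) * 2 ^ T + m := by ring
      have e3 : 2 * a * 2 ^ T ≤ (2 * a + 1) * 2 ^ T := Nat.mul_le_mul_right _ (by omega)
      rw [e2] at hle ⊢
      rw [← Finset.sum_Ico_consecutive g e3 (Nat.le_add_right _ m)]
      have h1 := h T (2 * a) (by omega)
      have h2 := ih (2 * a + 1) m hm hle
      refine (abs_add_le _ _).trans ?_
      linarith

theorem dyad (g : ℕ → ℝ) (E : ℕ → ℝ) (n T : ℕ) (hn : n < 2 ^ T) (hE : ∀ i, 0 ≤ E i)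
    (h : ∀ i j, (j + 1) * 2 ^ i ≤ n → |∑ k ∈ Ico (j * 2 ^ i) ((j + 1) * 2 ^ i), g k| ≤ E i) :
    |∑ k ∈ range n, g k| ≤ ∑ i ∈ range T, E i := by
  have := Dyad_aux g E n hE h T 0 n hn (by simp)
  rw [zero_mul, zero_add, ← Finset.range_eq_Ico] at this
  exact this

end Pool.Agent.H.MP_02f3ba_co.SS
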