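import Pool.Agent.H.MP_02f3ba_co.SS.AbsT
import Pool.Agent.H.MP_02f3ba_co.SS.Dyad
import Pool.Agent.H.MP_02f3ba_co.SS.AntiB
import Pool.Agent.H.MP_02f3ba_co.SS.Count

/-!
The single scale theorem.
-/

namespace Pool.Agent.H.MP_02f3ba_co.SS

open Finset

/-- the coefficient of the sign of the block at time `t` -/
def cof (L r : ℕ) (A : ℕ → ℤ) (t : ℕ) : ℤ := (-1) ^ (t / (2 ^ r * L)) * A (t % L)

/-- the vector of coefficients of the block signs in a progression sum, divided by `L` -/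
noncomputable def vec (L r : ℕ) (A : ℕ → ℤ) (c d : ℕ) (I : Finset ℕ) (b : ℕ) : ℝ :=
  (∑ k ∈ I, if ((c + k * d) % (2 ^ r * L)) / L = b then (cof L r A (c + k * d) : ℝ) else 0) / L

theorem cof_abs (L r : ℕ) (A : ℕ → ℤ) (hA : ∀ n, A n = 1 ∨ A n = -1) (t : ℕ) :
    |(cof L r A t : ℝ)| ≤ 1 := by
  have h1 : |cof L r A t| = 1 := by
    unfold cof
    rw [abs_mul, abs_pow]
    rcases hA (t % L) with h | h <;> simp [h]
  have h2 : |(cof L r A t : ℝ)| = ((|cof L r A t| : ℤ) : ℝ) := by push_cast; rfl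
  rw [h2, h1]
  norm_num

theorem vec_abs (L r : ℕ) (hL : 1 ≤ L) (A : ℕ → ℤ) (hA : ∀ n, A n = 1 ∨ A n = -1) (c d : ℕ)
    (hd : 1 ≤ d) (I : Finset ℕ) (hI : ∀ k ∈ I, k < 2 ^ r * L / Nat.gcd d (2 ^ r * L)) (b : ℕ) :
    |vec L r A c d I b| ≤ 1 := by
  have hL0 : (0 : ℝ) < L := by exact_mod_cast hL
  unfold vec
  rw [abs_div, abs_of_pos hL0, div_le_one hL0, ← Finset.sum_filter]
  refine (Finset.abs_sum_le_sum_abs _ _).trans ?_
  refine (Finset.sum_le_card_nsmul _ _ 1 fun k _ => cof_abs L r A hA _).trans ?_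
  rw [nsmul_eq_mul, mul_one]
  exact_mod_cast visits L r hL d hd c b I hI

theorem vec_supp (L r : ℕ) (A : ℕ → ℤ) (c d : ℕ) (I : Finset ℕ) :
    (Finset.univ.filter fun y : Fin (2 ^ r) => vec L r A c d I (y : ℕ) ≠ 0).card ≤ I.card := by
  have h : (Finset.univ.filter fun y : Fin (2 ^ r) => vec L r A c d I (y : ℕ) ≠ 0).image
      (fun y : Fin (2 ^ r) => (y : ℕ)) ⊆ I.image fun k => ((c + k * d) % (2 ^ r * L)) / L := by
    intro b hb
    rw [mem_image] at hb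
    obtain ⟨y, hy, rfl⟩ := hb
    rw [mem_filter] at hy
    by_contra hcon
    apply hy.2
    unfold vec
    rw [Finset.sum_eq_zero, zero_div]
    intro k hk
    rw [if_neg]
    intro h1
    exact hcon (mem_image.mpr ⟨k, hk, h1⟩)
  calc _ = ((Finset.univ.filter fun y : Fin (2 ^ r) => vec L r A c d I (y : ℕ) ≠ 0).image
      (fun y : Fin (2 ^ r) => (y : ℕ))).card :=
        (card_image_of_injective _ Fin.val_injective).symm
    _ ≤ _ := card_le_card h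
    _ ≤ _ := card_image_le

theorem vec_sum (L r : ℕ) (hL : 1 ≤ L) (A ε : ℕ → ℤ) (c d : ℕ) (I : Finset ℕ) :
    ∑ y : Fin (2 ^ r), vec L r A c d I (y : ℕ) * ((ε (y : ℕ) : ℤ) : ℝ) =
      (∑ k ∈ I, (anti L r A ε (c + k * d) : ℝ)) / L := by
  unfold vec
  simp_rw [div_mul_eq_mul_div, Finset.sum_mul]
  rw [← Finset.sum_div, Finset.sum_comm]
  congr 1
  refine Finset.sum_congr rfl fun k _ => ?_
  have hM : 0 < 2 ^ r * L := by positivity
  have hlt : ((c + k * d) % (2 ^ r * L)) / L < 2 ^ r := by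
    rw [Nat.div_lt_iff_lt_mul (by omega)]
    exact Nat.mod_lt _ hM
  rw [Finset.sum_eq_single (⟨((c + k * d) % (2 ^ r * L)) / L, hlt⟩ : Fin (2 ^ r))]
  · simp only [if_true]
    unfold anti cof
    push_cast
    ring
  · intro y _ hy
    rw [if_neg, zero_mul]
    intro h
    apply hy
    ext
    exact h.symm
  · intro h
    exact absurd (mem_univ _) h

theorem gd_aux (L : ℕ) (hL : 1 ≤ L) : ∃ K : ℝ, 0 < K ∧ ∀ A : ℕ → ℤ, (∀ n, A n = 1 ∨ A n = -1) →
    ∀ r : ℕ, ∃ ε : ℕ → ℤ, (∀ n, ε n = 1 ∨ ε n = -1) ∧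
      ∀ d, 1 ≤ d → d ≤ 2 ^ r → ∀ a n : ℕ,
        |((∑ k ∈ range n, anti L r A ε (a + k * d) : ℤ) : ℝ)| ≤ K * Real.sqrt (2 ^ r) := by
  obtain ⟨C, hC, hab⟩ := abst (L : ℝ) (Nat.cast_nonneg L) (Nat.log 2 L + 1)
  have hL0 : (0 : ℝ) < L := by exact_mod_cast hL
  refine ⟨4 * (L * C), by positivity, fun A hA r => ?_⟩
  set q := Nat.log 2 L + 1 with hq
  set M := 2 ^ r * L with hM
  have hM0 : 0 < M := by positivity
  have hLq : L < 2 ^ q := Nat.lt_pow_succ_log_self (by norm_num) L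
  have hMq : M < 2 ^ (r + q) := by
    rw [pow_add]
    exact Nat.mul_lt_mul_of_pos_left hLq (by positivity)
  let S : Finset (ℕ × (ℕ × ℕ × ℕ)) :=
    (range (r + q) ×ˢ (Icc 1 (2 ^ r) ×ˢ range M ×ˢ range (M + 1))).filter
      fun s => s.2.2.1 < Nat.gcd s.2.1 M ∧ (s.2.2.2 + 1) * 2 ^ s.1 ≤ M / Nat.gcd s.2.1 M
  have hSmem : ∀ i d c j, (i, (d, c, j)) ∈ S ↔ (i < r + q ∧ (1 ≤ d ∧ d ≤ 2 ^ r) ∧ c < M ∧ j < M + 1)
      ∧ c < Nat.gcd d M ∧ (j + 1) * 2 ^ i ≤ M / Nat.gcd d M := by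
    intro i d c j
    simp only [S, mem_filter, mem_product, mem_range, mem_Icc]
  let v : ℕ × (ℕ × ℕ × ℕ) → Fin (2 ^ r) → ℝ := fun s y =>
    vec L r A s.2.2.1 s.2.1 (Ico (s.2.2.2 * 2 ^ s.1) ((s.2.2.2 + 1) * 2 ^ s.1)) (y : ℕ)
  have hcard : Fintype.card (Fin (2 ^ r)) = 2 ^ r := Fintype.card_fin _
  obtain ⟨ε₀, hε₀, E, hE0, hE1, hE2⟩ := hab r (Fin (2 ^ r)) (ℕ × (ℕ × ℕ × ℕ)) S Prod.fst v hcard
    (by
      rintro ⟨i, d, c, j⟩ hs y
      rw [hSmem] at hs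
      apply vec_abs L r hL A hA c d hs.1.2.1.1
      intro k hk
      rw [mem_Ico] at hk
      exact lt_of_lt_of_le hk.2 hs.2.2)
    (by
      rintro ⟨i, d, c, j⟩ hs
      refine (vec_supp L r A c d _).trans ?_
      rw [Nat.card_Ico]
      show (j + 1) * 2 ^ i - j * 2 ^ i ≤ 2 ^ i
      have h1 : (j + 1) * 2 ^ i = j * 2 ^ i + 2 ^ i := by ring
      rw [h1, Nat.add_sub_cancel_left])
    (by
      rintro ⟨i, d, c, j⟩ hs
      rw [hSmem] at hs
      exact hs.1.1)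
    (by
      intro i
      refine le_trans ?_ (count_vecs L r i hL)
      apply mul_le_mul_of_nonneg_right _ (by positivity)
      have h : ((S.filter fun s => s.1 = i).image Prod.snd) ⊆
          ((Icc 1 (2 ^ r) ×ˢ range (2 ^ r * L) ×ˢ range (2 ^ r * L + 1)).filter
      fun s : ℕ × ℕ × ℕ => s.2.1 < Nat.gcd s.1 (2 ^ r * L) ∧
        (s.2.2 + 1) * 2 ^ i ≤ 2 ^ r * L / Nat.gcd s.1 (2 ^ r * L)) := by
        intro x hx
        rw [mem_image] at hx
        obtain ⟨⟨i', d, c, j⟩, hs, rfl⟩ := hx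
        rw [mem_filter] at hs
        obtain ⟨hs1, hs2⟩ := hs
        rw [hSmem] at hs1
        have h2 : i' = i := hs2
        subst h2
        simp only [mem_filter, mem_product, mem_range, mem_Icc]
        exact ⟨⟨hs1.1.2.1, hs1.1.2.2⟩, hs1.2⟩
      have hinj : Set.InjOn Prod.snd
          ((S.filter fun s => s.1 = i : Finset (ℕ × (ℕ × ℕ × ℕ))) : Set (ℕ × (ℕ × ℕ × ℕ))) := by
        intro x hx y hy hxy
        rw [mem_coe, mem_filter] at hx hy
        exact Prod.ext (hx.2.trans hy.2.symm) hxy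
      rw [← card_image_of_injOn hinj]
      exact_mod_cast card_le_card h)
  refine ⟨fun n => if h : n < 2 ^ r then ε₀ ⟨n, h⟩ else 1, ?_, ?_⟩
  · intro n
    by_cases h : n < 2 ^ r
    · simp only [h, dif_pos]
      exact hε₀ _
    · simp [h]
  intro d hd1 hd2 a n
  set ε : ℕ → ℤ := fun n => if h : n < 2 ^ r then ε₀ ⟨n, h⟩ else 1 with hε
  have hεy : ∀ y : Fin (2 ^ r), ε (y : ℕ) = ε₀ y := by
    intro y
    simp [hε]
  have hmain : ∀ c n', c < Nat.gcd d M → n' ≤ M / Nat.gcd d M →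
      |((∑ k ∈ range n', anti L r A ε (c + k * d) : ℤ) : ℝ)| ≤ L * C * Real.sqrt (2 ^ r) := by
    intro c n' hc hn'
    have hg : Nat.gcd d M ≤ M := Nat.gcd_le_right _ hM0
    have hn0 : M / Nat.gcd d M ≤ M := Nat.div_le_self _ _
    have hdy := dyad (fun k => (anti L r A ε (c + k * d) : ℝ)) (fun i => L * E i) n' (r + q)
      (by omega) (fun i => mul_nonneg hL0.le (hE0 i)) (by
        intro i j hij
        have h2i : 2 ^ i ≤ M := by
          have : 2 ^ i ≤ (j + 1) * 2 ^ i := Nat.le_mul_of_pos_left _ (by omega)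
          omega
        have hir : i < r + q := by
          by_contra hcon
          push Not at hcon
          have : 2 ^ (r + q) ≤ 2 ^ i := Nat.pow_le_pow_right (by norm_num) hcon
          omega
        have hj : j < M + 1 := by
          have : j + 1 ≤ (j + 1) * 2 ^ i := Nat.le_mul_of_pos_right _ (by positivity)
          omega
        have hs : (i, (d, c, j)) ∈ S := by
          rw [hSmem]
          exact ⟨⟨hir, ⟨hd1, hd2⟩, by omega, hj⟩, hc, by omega⟩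
        have h1 := hE1 _ hs
        have h2 := vec_sum L r hL A ε c d (Ico (j * 2 ^ i) ((j + 1) * 2 ^ i))
        have h3 : ∑ y, v (i, (d, c, j)) y * (ε₀ y : ℝ) =
            (∑ k ∈ Ico (j * 2 ^ i) ((j + 1) * 2 ^ i), (anti L r A ε (c + k * d) : ℝ)) / L := by
          rw [← h2]
          refine Finset.sum_congr rfl fun y _ => ?_
          rw [hεy]
        rw [h3, abs_div, abs_of_pos hL0, div_le_iff₀ hL0] at h1
        exact h1.trans (le_of_eq (mul_comm _ _)))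
    have h4 : ((∑ k ∈ range n', anti L r A ε (c + k * d) : ℤ) : ℝ) =
        ∑ k ∈ range n', (anti L r A ε (c + k * d) : ℝ) := by push_cast; rfl
    rw [h4]
    refine hdy.trans ?_
    rw [← Finset.mul_sum, mul_assoc]
    exact mul_le_mul_of_nonneg_left hE2 hL0.le
  have h5 := anti_reduce L r hL A ε d hd1 hd2 (L * C * Real.sqrt (2 ^ r)) hmain a n
  refine h5.trans (le_of_eq ?_)
  ring

theorem anti_smul (L r : ℕ) (A ε : ℕ → ℤ) (s : ℤ) (t : ℕ) :
    anti L r A (fun n => s * ε n) t = s * anti L r A ε t := by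
  unfold anti
  ring

theorem gd (L : ℕ) (hL : 1 ≤ L) : ∃ K : ℝ, 0 < K ∧ ∀ A : ℕ → ℤ, (∀ n, A n = 1 ∨ A n = -1) →
    ∀ r : ℕ, ∃ ε : ℕ → ℤ, (∀ n, ε n = 1 ∨ ε n = -1) ∧ ε 0 = 1 ∧
      ∀ d, 1 ≤ d → d ≤ 2 ^ r → ∀ a n : ℕ,
        |((∑ k ∈ range n, anti L r A ε (a + k * d) : ℤ) : ℝ)| ≤ K * Real.sqrt (2 ^ r) := by
  obtain ⟨K, hK, h⟩ := gd_aux L hL
  refine ⟨K, hK, fun A hA r => ?_⟩
  obtain ⟨ε, hε, h2⟩ := h A hA r
  refine ⟨fun n => ε 0 * ε n, ?_, ?_, ?_⟩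
  · intro n
    rcases hε 0 with h3 | h3 <;> rcases hε n with h4 | h4 <;> simp [h3, h4]
  · rcases hε 0 with h3 | h3 <;> simp [h3]
  · intro d hd1 hd2 a n
    have h3 := h2 d hd1 hd2 a n
    simp_rw [anti_smul]
    rw [← Finset.mul_sum]
    push_cast
    rw [abs_mul]
    have h4 : |((ε 0 : ℤ) : ℝ)| = 1 := by
      rcases hε 0 with h3 | h3 <;> simp [h3]
    rw [h4, one_mul]
    push_cast at h3
    exact h3

/-- one sequence of signs, all progressions of difference at most `D`, any length -/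
theorem single_scale : ∃ C : ℝ, 0 < C ∧ ∀ D : ℕ, 1 ≤ D → ∃ f : ℕ → ℤ,
    (∀ n, f n = 1 ∨ f n = -1) ∧ ∀ a d n : ℕ, 1 ≤ d → d ≤ D →
      |((∑ k ∈ range n, f (a + k * d) : ℤ) : ℝ)| ≤ C * Real.sqrt D := by
  obtain ⟨K, hK, h⟩ := gd 1 le_rfl
  refine ⟨K * Real.sqrt 2, by positivity, fun D hD => ?_⟩
  obtain ⟨ε, hε, _, h2⟩ := h (fun _ => 1) (fun _ => Or.inl rfl) (Nat.clog 2 D)
  refine ⟨anti 1 (Nat.clog 2 D) (fun _ => 1) ε,
    anti_sign 1 _ _ ε (fun _ => Or.inl rfl) hε, ?_⟩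
  intro a d n hd1 hd2
  have h3 : D ≤ 2 ^ Nat.clog 2 D := Nat.le_pow_clog (by norm_num) D
  refine (h2 d hd1 (hd2.trans h3) a n).trans ?_
  rw [mul_assoc, ← Real.sqrt_mul (by norm_num)]
  apply mul_le_mul_of_nonneg_left _ hK.le
  apply Real.sqrt_le_sqrt
  have h4 : 2 ^ Nat.clog 2 D ≤ 2 * D := by
    rcases Nat.lt_or_ge 1 D with h5 | h5
    · have h6 := Nat.pow_pred_clog_lt_self (b := 2) (by norm_num) h5
      have h7 : 0 < Nat.clog 2 D := Nat.clog_pos (by norm_num) h5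
      obtain ⟨e, he⟩ : ∃ e, Nat.clog 2 D = e + 1 := ⟨Nat.clog 2 D - 1, by omega⟩
      rw [he] at h6 ⊢
      simp only [Nat.pred_succ] at h6
      rw [pow_succ]
      omega
    · have : D = 1 := by omega
      subst this
      simp
  exact_mod_cast h4

end Pool.Agent.H.MP_02f3ba_co.SS
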