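import Pool.Agent.H.MP_02f3ba_co.SS.Defs

/-!
Exponential moments of Rademacher sums.
-/

namespace Pool.Agent.H.MP_02f3ba_co.SS

private theorem mgf_eq {V : Type*} [Fintype V] [DecidableEq V] (v : V → ℝ) (t : ℝ) :
    ∑ ω : V → Bool, Real.exp (t * ∑ y, v y * sg (ω y)) =
      ∏ y, (Real.exp (t * v y) + Real.exp (-(t * v y))) := by
  have h1 : ∀ y, Real.exp (t * v y) + Real.exp (-(t * v y)) =
      ∑ b : Bool, Real.exp (t * (v y * sg b)) := by
    intro y
    rw [Fintype.sum_bool]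
    simp only [sg, if_true, Bool.false_eq_true, if_false]
    congr 2 <;> ring
  simp_rw [h1]
  rw [Finset.prod_univ_sum]
  rw [Fintype.piFinset_univ]
  refine Finset.sum_congr rfl fun ω _ => ?_
  rw [← Real.exp_sum, Finset.mul_sum]

private theorem mgf_le {V : Type*} [Fintype V] [DecidableEq V] (v : V → ℝ) (t U : ℝ)
    (hU : ∑ y, v y ^ 2 ≤ U) :
    ∑ ω : V → Bool, Real.exp (t * ∑ y, v y * sg (ω y)) ≤
      2 ^ Fintype.card V * Real.exp (t ^ 2 * U / 2) := by
  rw [mgf_eq]
  calc ∏ y, (Real.exp (t * v y) + Real.exp (-(t * v y)))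
      ≤ ∏ y : V, (2 * Real.exp ((t * v y) ^ 2 / 2)) := by
        refine Finset.prod_le_prod (fun y _ => by positivity) fun y _ => ?_
        have h := Real.cosh_le_exp_half_sq (t * v y)
        rw [Real.cosh_eq] at h
        linarith
    _ = 2 ^ Fintype.card V * Real.exp (∑ y, (t * v y) ^ 2 / 2) := by
        rw [Finset.prod_mul_distrib, Finset.prod_const, Real.exp_sum, Finset.card_univ]
    _ ≤ 2 ^ Fintype.card V * Real.exp (t ^ 2 * U / 2) := by
        refine mul_le_mul_of_nonneg_left ?_ (by positivity)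
        refine Real.exp_le_exp.2 ?_
        have h2 : ∑ y, (t * v y) ^ 2 / 2 = t ^ 2 * (∑ y, v y ^ 2) / 2 := by
          rw [Finset.mul_sum, Finset.sum_div]
          refine Finset.sum_congr rfl fun y _ => ?_
          ring
        rw [h2]
        have := mul_le_mul_of_nonneg_left hU (sq_nonneg t)
        linarith

theorem hoef {V : Type*} [Fintype V] [DecidableEq V] (v : V → ℝ) (t U : ℝ)
    (hU : ∑ y, v y ^ 2 ≤ U) :
    ∑ ω : V → Bool, Real.exp (t * |∑ y, v y * sg (ω y)|) ≤
      2 * 2 ^ Fintype.card V * Real.exp (t ^ 2 * U / 2) := by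
  have h1 := mgf_le v t U hU
  have h2 := mgf_le v (-t) U hU
  have h3 : ∀ ω : V → Bool, Real.exp (t * |∑ y, v y * sg (ω y)|) ≤
      Real.exp (t * ∑ y, v y * sg (ω y)) + Real.exp (-t * ∑ y, v y * sg (ω y)) := by
    intro ω
    rcases abs_choice (∑ y, v y * sg (ω y)) with h | h
    · rw [h]
      have := Real.exp_pos (-t * ∑ y, v y * sg (ω y))
      linarith
    · rw [h]
      have := Real.exp_pos (t * ∑ y, v y * sg (ω y))
      have h4 : t * -∑ y, v y * sg (ω y) = -t * ∑ y, v y * sg (ω y) := by ring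
      rw [h4]
      linarith
  calc ∑ ω : V → Bool, Real.exp (t * |∑ y, v y * sg (ω y)|)
      ≤ ∑ ω : V → Bool, (Real.exp (t * ∑ y, v y * sg (ω y)) +
          Real.exp (-t * ∑ y, v y * sg (ω y))) := Finset.sum_le_sum fun ω _ => h3 ω
    _ = (∑ ω : V → Bool, Real.exp (t * ∑ y, v y * sg (ω y))) +
          ∑ ω : V → Bool, Real.exp (-t * ∑ y, v y * sg (ω y)) := Finset.sum_add_distrib
    _ ≤ 2 * 2 ^ Fintype.card V * Real.exp (t ^ 2 * U / 2) := by
        rw [neg_sq] at h2
        linarith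

end Pool.Agent.H.MP_02f3ba_co.SS
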