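import Pool.Agent.H.MP_02f3ba_co.SS.Defs

/-!
The thresholds of one colouring stage.
-/

namespace Pool.Agent.H.MP_02f3ba_co.SS

open Finset

/-- the eighth root of two -/
noncomputable def eta : ℝ := Real.sqrt (Real.sqrt (Real.sqrt 2))

theorem eta_pow : eta ^ 8 = 2 := by
  have h1 : eta ^ 2 = Real.sqrt (Real.sqrt 2) := Real.sq_sqrt (Real.sqrt_nonneg _)
  have h2 : (eta ^ 2) ^ 2 = Real.sqrt 2 := by rw [h1]; exact Real.sq_sqrt (Real.sqrt_nonneg _)
  have h3 : ((eta ^ 2) ^ 2) ^ 2 = 2 := by rw [h2]; exact Real.sq_sqrt (by norm_num)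
  calc eta ^ 8 = ((eta ^ 2) ^ 2) ^ 2 := by ring
    _ = 2 := h3

theorem eta_ge : (1.09 : ℝ) ≤ eta := by
  apply Real.le_sqrt_of_sq_le
  apply Real.le_sqrt_of_sq_le
  apply Real.le_sqrt_of_sq_le
  norm_num

theorem eta_pos : 0 < eta := lt_of_lt_of_le (by norm_num) eta_ge

theorem eta_one : 1 ≤ eta := le_trans (by norm_num) eta_ge

theorem eta_bern (n : ℕ) : 1 + (0.09 : ℝ) * n ≤ eta ^ n := by
  have h1 : (1 : ℝ) + n * (eta - 1) ≤ (1 + (eta - 1)) ^ n :=
    one_add_mul_le_pow (by linarith [eta_ge]) n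
  have h2 : (1 + (eta - 1)) = eta := by ring
  rw [h2] at h1
  have h3 : (0 : ℝ) ≤ n := Nat.cast_nonneg n
  have h4 := eta_ge
  nlinarith

theorem sum_split (w : ℕ → ℝ) (hw : ∀ i, 0 ≤ w i) (n l : ℕ) :
    ∑ i ∈ range n, w i ≤ ∑ i ∈ range l, w i + ∑ k ∈ range n, w (l + k) := by
  rw [← Finset.sum_range_add]
  apply Finset.sum_le_sum_of_subset_of_nonneg
  · intro i hi
    rw [mem_range] at hi ⊢
    omega
  · intro i _ _
    exact hw i

theorem geo_up (x : ℝ) (hx : 7 / 6 ≤ x) (l : ℕ) : ∑ i ∈ range l, x ^ i ≤ 6 * x ^ l := by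
  induction l with
  | zero => simp
  | succ l ih =>
    rw [Finset.sum_range_succ, pow_succ]
    have : 0 < x ^ l := by positivity
    nlinarith

theorem geo_down (y : ℝ) (hy0 : 0 ≤ y) (hy : y ≤ 12 / 13) (n : ℕ) :
    ∑ i ∈ range n, y ^ i ≤ 13 * (1 - y ^ n) := by
  induction n with
  | zero => simp
  | succ n ih =>
    rw [Finset.sum_range_succ, pow_succ]
    have : 0 ≤ y ^ n := by positivity
    nlinarith

theorem exp_bound (x Λ κ : ℝ) (_hΛ : 0 ≤ Λ) (n b : ℕ) (hb : 1 ≤ b)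
    (hx : Λ * (1 + κ * n) ≤ x) (hκ : Real.log b ≤ Λ * κ) :
    Real.exp (-x) ≤ Real.exp (-Λ) * ((1 : ℝ) / b) ^ n := by
  have hb0 : (0 : ℝ) < b := by exact_mod_cast hb
  have h1 : ((1 : ℝ) / b) ^ n = Real.exp (-(n * Real.log b)) := by
    rw [Real.exp_neg, Real.exp_nat_mul, Real.exp_log hb0]
    rw [one_div, inv_pow]
  rw [h1, ← Real.exp_add]
  apply Real.exp_le_exp.mpr
  have h2 : (0 : ℝ) ≤ n := Nat.cast_nonneg n
  nlinarith

theorem num (Q : ℝ) (hQ : 0 ≤ Q) (q : ℕ) : ∃ C : ℝ, 0 < C ∧ ∀ r l m : ℕ, l ≤ r → 2 ^ l < 2 * m →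
    ∃ Δ : ℕ → ℝ, (∀ i, 0 < Δ i) ∧ (∀ i, i < r + q → 4 * (2 : ℝ) ^ (min i l) ≤ Δ i ^ 2) ∧
      (∑ i ∈ Finset.range (r + q), Q * 4 ^ r / 2 ^ i *
        Real.exp (-(Δ i ^ 2 / (4 * (2 : ℝ) ^ (min i l)))) ≤ (m : ℝ) / 32) ∧
      ∑ i ∈ Finset.range (r + q), Δ i ≤ C * Real.sqrt (Real.sqrt ((m : ℝ) * 2 ^ r)) := by
  have he0 := eta_pos
  have he1 := eta_one
  have he8 := eta_pow
  set Λ : ℝ := 12 + 256 * Q with hΛ
  have hΛ12 : 12 ≤ Λ := by rw [hΛ]; linarith
  have hΛ0 : 0 ≤ Λ := by linarith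
  have hexpΛ : Q * Real.exp (-Λ) ≤ 1 / 256 := by
    have h1 : 256 * Q ≤ Real.exp Λ := by
      have := Real.add_one_le_exp Λ
      linarith
    have h2 : 0 < Real.exp Λ := Real.exp_pos _
    rw [Real.exp_neg, ← div_eq_mul_inv, div_le_iff₀ h2]
    linarith
  set lam : ℝ := Λ * eta ^ (2 * q) with hlam
  have hlam0 : 0 < lam := by positivity
  have hlamΛ : Λ ≤ lam := by
    rw [hlam]
    exact le_mul_of_one_le_right hΛ0 (one_le_pow₀ he1)
  set A : ℝ := 2 * Real.sqrt lam with hA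
  have hA0 : 0 < A := by positivity
  have hA2 : A ^ 2 = 4 * lam := by
    rw [hA, mul_pow, Real.sq_sqrt hlam0.le]
    norm_num
  refine ⟨38 * A, by positivity, fun r l m hlr hlm => ?_⟩
  have hlog8 : Real.log (8 : ℕ) ≤ Λ * 0.36 := by
    have h1 : Real.log (8 : ℕ) = 3 * Real.log 2 := by
      have : ((8 : ℕ) : ℝ) = 2 ^ 3 := by norm_num
      rw [this, Real.log_pow]
      norm_num
    have h2 := Real.log_two_lt_d9
    rw [h1]
    linarith
  have hlog4 : Real.log (4 : ℕ) ≤ Λ * 0.18 := by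
    have h1 : Real.log (4 : ℕ) = 2 * Real.log 2 := by
      have : ((4 : ℕ) : ℝ) = 2 ^ 2 := by norm_num
      rw [this, Real.log_pow]
      norm_num
    have h2 := Real.log_two_lt_d9
    rw [h1]
    linarith
  -- the thresholds
  let Δ : ℕ → ℝ := fun i => if i < l then A * eta ^ (2 * (r + i)) else
    A * eta ^ (2 * (r + l)) / eta ^ (i - l)
  have hΔ1 : ∀ i, i < l → Δ i = A * eta ^ (2 * (r + i)) := fun i hi => if_pos hi
  have hΔ2 : ∀ i, ¬ i < l → Δ i = A * eta ^ (2 * (r + l)) / eta ^ (i - l) := fun i hi => if_neg hi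
  have hp2 : ∀ n : ℕ, (2 : ℝ) ^ n = eta ^ (8 * n) := by
    intro n
    rw [pow_mul, he8]
  have hthr1 : ∀ i, i < l → Δ i ^ 2 / (4 * (2 : ℝ) ^ (min i l)) = lam * eta ^ (4 * (r - i)) := by
    intro i hi
    rw [hΔ1 i hi, min_eq_left hi.le, hp2, mul_pow, hA2, div_eq_iff (by positivity)]
    obtain ⟨j, rfl⟩ : ∃ j, r = i + j := ⟨r - i, by omega⟩
    rw [Nat.add_sub_cancel_left]
    ring
  have hthr2 : ∀ i, ¬ i < l → i < r + q →
      Λ * eta ^ (2 * (r - l)) ≤ Δ i ^ 2 / (4 * (2 : ℝ) ^ (min i l)) := by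
    intro i hi hi2
    rw [hΔ2 i hi, min_eq_right (by omega), hp2, div_pow, mul_pow, hA2, div_div,
      le_div_iff₀ (by positivity), hlam]
    obtain ⟨j, rfl⟩ : ∃ j, r = l + j := ⟨r - l, by omega⟩
    obtain ⟨k, rfl⟩ : ∃ k, i = l + k := ⟨i - l, by omega⟩
    rw [Nat.add_sub_cancel_left, Nat.add_sub_cancel_left]
    have hk : k ≤ j + q := by omega
    have h1 : eta ^ (2 * k) ≤ eta ^ (2 * (j + q)) := pow_le_pow_right₀ he1 (by omega)
    have h2 : (0 : ℝ) ≤ 4 * Λ * (eta ^ (2 * j) * eta ^ (8 * l)) := by positivity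
    calc Λ * eta ^ (2 * j) * ((eta ^ k) ^ 2 * (4 * eta ^ (8 * l)))
        = 4 * Λ * (eta ^ (2 * j) * eta ^ (8 * l)) * eta ^ (2 * k) := by ring
      _ ≤ 4 * Λ * (eta ^ (2 * j) * eta ^ (8 * l)) * eta ^ (2 * (j + q)) :=
          mul_le_mul_of_nonneg_left h1 h2
      _ = 4 * (Λ * eta ^ (2 * q)) * (eta ^ (2 * (l + j + l))) ^ 2 := by ring
  have hmr : (2 : ℝ) ^ l ≤ 2 * m := by exact_mod_cast hlm.le
  refine ⟨Δ, ?_, ?_, ?_, ?_⟩
  · intro i
    by_cases hi : i < l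
    · rw [hΔ1 i hi]; positivity
    · rw [hΔ2 i hi]; positivity
  · intro i hi
    have h4 : (0 : ℝ) < 4 * (2 : ℝ) ^ (min i l) := by positivity
    have h5 : 1 ≤ Δ i ^ 2 / (4 * (2 : ℝ) ^ (min i l)) := by
      by_cases hil : i < l
      · rw [hthr1 i hil]
        have : 1 ≤ eta ^ (4 * (r - i)) := one_le_pow₀ he1
        nlinarith
      · refine le_trans ?_ (hthr2 i hil hi)
        have : 1 ≤ eta ^ (2 * (r - l)) := one_le_pow₀ he1
        nlinarith
    rwa [one_le_div h4] at h5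
  · -- the entropy sum
    let w : ℕ → ℝ := fun i => if i < l then (2 : ℝ) ^ i else 2 ^ l / 2 ^ (i - l)
    have hw1 : ∀ i, i < l → w i = (2 : ℝ) ^ i := fun i hi => if_pos hi
    have hw2 : ∀ i, ¬ i < l → w i = (2 : ℝ) ^ l / 2 ^ (i - l) := fun i hi => if_neg hi
    have hw0 : ∀ i, 0 ≤ w i := by
      intro i
      by_cases hi : i < l
      · rw [hw1 i hi]; positivity
      · rw [hw2 i hi]; positivity
    have hterm : ∀ i ∈ Finset.range (r + q), Q * 4 ^ r / 2 ^ i *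
        Real.exp (-(Δ i ^ 2 / (4 * (2 : ℝ) ^ (min i l)))) ≤ Q * Real.exp (-Λ) * w i := by
      intro i hi
      rw [mem_range] at hi
      have hc0 : (0 : ℝ) ≤ Q * 4 ^ r / 2 ^ i := by positivity
      by_cases hil : i < l
      · rw [hw1 i hil]
        have hb := exp_bound (Δ i ^ 2 / (4 * (2 : ℝ) ^ (min i l))) Λ 0.36 hΛ0 (r - i) 8
          (by norm_num) (by
            rw [hthr1 i hil]
            have h1 := eta_bern (4 * (r - i))
            push_cast at h1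
            have h2 : (0 : ℝ) ≤ ((r - i : ℕ) : ℝ) := Nat.cast_nonneg _
            have h3 : 1 + 0.36 * ((r - i : ℕ) : ℝ) ≤ eta ^ (4 * (r - i)) := by linarith
            calc Λ * (1 + 0.36 * ((r - i : ℕ) : ℝ)) ≤ Λ * eta ^ (4 * (r - i)) :=
                  mul_le_mul_of_nonneg_left h3 hΛ0
              _ ≤ lam * eta ^ (4 * (r - i)) :=
                  mul_le_mul_of_nonneg_right hlamΛ (by positivity)) hlog8
        refine (mul_le_mul_of_nonneg_left hb hc0).trans ?_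
        obtain ⟨j, rfl⟩ : ∃ j, r = i + j := ⟨r - i, by omega⟩
        rw [Nat.add_sub_cancel_left]
        have h5 : Q * 4 ^ (i + j) / 2 ^ i * (Real.exp (-Λ) * (1 / ((8 : ℕ) : ℝ)) ^ j) =
            Q * Real.exp (-Λ) * 2 ^ i * (1 / 2) ^ j := by
          have h6 : (4 : ℝ) ^ (i + j) = 2 ^ i * 2 ^ i * 4 ^ j := by
            rw [pow_add, show (4 : ℝ) ^ i = 2 ^ i * 2 ^ i by rw [← mul_pow]; norm_num]
          have h7 : (4 : ℝ) ^ j * (1 / ((8 : ℕ) : ℝ)) ^ j = (1 / 2) ^ j := by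
            rw [← mul_pow]; norm_num
          rw [h6, ← h7]
          have h8 : (2 : ℝ) ^ i ≠ 0 := by positivity
          field_simp
        rw [h5]
        have h9 : ((1 : ℝ) / 2) ^ j ≤ 1 := pow_le_one₀ (by norm_num) (by norm_num)
        have h10 : 0 ≤ Q * Real.exp (-Λ) * 2 ^ i := by positivity
        nlinarith
      · rw [hw2 i hil]
        have hb := exp_bound (Δ i ^ 2 / (4 * (2 : ℝ) ^ (min i l))) Λ 0.18 hΛ0 (r - l) 4
          (by norm_num) (by
            refine le_trans ?_ (hthr2 i hil hi)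
            have h1 := eta_bern (2 * (r - l))
            push_cast at h1
            have h3 : 1 + 0.18 * ((r - l : ℕ) : ℝ) ≤ eta ^ (2 * (r - l)) := by linarith
            exact mul_le_mul_of_nonneg_left h3 hΛ0) hlog4
        refine (mul_le_mul_of_nonneg_left hb hc0).trans (le_of_eq ?_)
        obtain ⟨j, rfl⟩ : ∃ j, r = l + j := ⟨r - l, by omega⟩
        obtain ⟨k, rfl⟩ : ∃ k, i = l + k := ⟨i - l, by omega⟩
        rw [Nat.add_sub_cancel_left, Nat.add_sub_cancel_left]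
        have h6 : (4 : ℝ) ^ (l + j) = 2 ^ l * 2 ^ l * 4 ^ j := by
          rw [pow_add, show (4 : ℝ) ^ l = 2 ^ l * 2 ^ l by rw [← mul_pow]; norm_num]
        have h7 : (4 : ℝ) ^ j * (1 / ((4 : ℕ) : ℝ)) ^ j = 1 := by
          rw [← mul_pow]; norm_num
        rw [h6, pow_add]
        calc Q * (2 ^ l * 2 ^ l * 4 ^ j) / (2 ^ l * 2 ^ k) *
              (Real.exp (-Λ) * (1 / ((4 : ℕ) : ℝ)) ^ j)
            = Q * Real.exp (-Λ) * (2 ^ l * 2 ^ l / (2 ^ l * 2 ^ k)) *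
              ((4 : ℝ) ^ j * (1 / ((4 : ℕ) : ℝ)) ^ j) := by ring
          _ = Q * Real.exp (-Λ) * (2 ^ l / 2 ^ k) := by
              rw [h7, mul_one, mul_div_mul_left _ _ (by positivity)]
    refine (Finset.sum_le_sum hterm).trans ?_
    rw [← Finset.mul_sum]
    have hsum : ∑ i ∈ range (r + q), w i ≤ 3 * 2 ^ l := by
      refine (sum_split w hw0 (r + q) l).trans ?_
      have h1 : ∑ i ∈ range l, w i ≤ 2 ^ l := by
        have h2 : ∑ i ∈ range l, w i = ∑ i ∈ range l, (2 : ℝ) ^ i :=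
          Finset.sum_congr rfl fun i hi => hw1 i (mem_range.mp hi)
        rw [h2, geom_sum_eq (by norm_num)]
        norm_num
      have h3 : ∑ k ∈ range (r + q), w (l + k) ≤ 2 * 2 ^ l := by
        have h4 : ∑ k ∈ range (r + q), w (l + k) =
            2 ^ l * ∑ k ∈ range (r + q), (1 / (2 : ℝ)) ^ k := by
          rw [Finset.mul_sum]
          refine Finset.sum_congr rfl fun k _ => ?_
          rw [hw2 (l + k) (by omega), Nat.add_sub_cancel_left, one_div, inv_pow, div_eq_mul_inv]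
        rw [h4, mul_comm]
        exact mul_le_mul_of_nonneg_right (sum_geometric_two_le _) (by positivity)
      linarith
    have h0 : 0 ≤ Q * Real.exp (-Λ) := by positivity
    have h2l : (0 : ℝ) ≤ 2 ^ l := by positivity
    calc Q * Real.exp (-Λ) * ∑ i ∈ range (r + q), w i ≤ Q * Real.exp (-Λ) * (3 * 2 ^ l) :=
          mul_le_mul_of_nonneg_left hsum h0
      _ ≤ 1 / 256 * (3 * 2 ^ l) := mul_le_mul_of_nonneg_right hexpΛ (by positivity)
      _ ≤ (m : ℝ) / 32 := by linarith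
  · -- the sum of the thresholds
    have hΔ0 : ∀ i, 0 ≤ Δ i := by
      intro i
      by_cases hi : i < l
      · rw [hΔ1 i hi]; positivity
      · rw [hΔ2 i hi]; positivity
    have h1 : ∑ i ∈ range l, Δ i ≤ 6 * (A * eta ^ (2 * (r + l))) := by
      have h2 : ∑ i ∈ range l, Δ i = A * eta ^ (2 * r) * ∑ i ∈ range l, (eta ^ 2) ^ i := by
        rw [Finset.mul_sum]
        refine Finset.sum_congr rfl fun i hi => ?_
        rw [hΔ1 i (mem_range.mp hi)]
        ring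
      rw [h2]
      have h3 := geo_up (eta ^ 2) (by nlinarith [eta_ge]) l
      calc A * eta ^ (2 * r) * ∑ i ∈ range l, (eta ^ 2) ^ i
          ≤ A * eta ^ (2 * r) * (6 * (eta ^ 2) ^ l) := mul_le_mul_of_nonneg_left h3 (by positivity)
        _ = 6 * (A * eta ^ (2 * (r + l))) := by ring
    have h4 : ∑ k ∈ range (r + q), Δ (l + k) ≤ 13 * (A * eta ^ (2 * (r + l))) := by
      have h5 : ∑ k ∈ range (r + q), Δ (l + k) =
          A * eta ^ (2 * (r + l)) * ∑ k ∈ range (r + q), (eta⁻¹) ^ k := by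
        rw [Finset.mul_sum]
        refine Finset.sum_congr rfl fun k _ => ?_
        rw [hΔ2 (l + k) (by omega), Nat.add_sub_cancel_left, inv_pow, div_eq_mul_inv]
      rw [h5]
      have h6 : eta⁻¹ ≤ 12 / 13 := by
        rw [inv_le_comm₀ he0 (by norm_num)]
        refine le_trans ?_ eta_ge
        norm_num
      have h7 := geo_down (eta⁻¹) (by positivity) h6 (r + q)
      have h8 : (0 : ℝ) ≤ (eta⁻¹) ^ (r + q) := by positivity
      calc A * eta ^ (2 * (r + l)) * ∑ k ∈ range (r + q), (eta⁻¹) ^ k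
          ≤ A * eta ^ (2 * (r + l)) * 13 :=
            mul_le_mul_of_nonneg_left (by linarith) (by positivity)
        _ = 13 * (A * eta ^ (2 * (r + l))) := by ring
    have h9 : eta ^ (2 * (r + l)) ≤ 2 * Real.sqrt (Real.sqrt ((m : ℝ) * 2 ^ r)) := by
      have h10 : eta ^ (2 * (r + l)) / 2 ≤ Real.sqrt (Real.sqrt ((m : ℝ) * 2 ^ r)) := by
        apply Real.le_sqrt_of_sq_le
        apply Real.le_sqrt_of_sq_le
        have h11 : ((eta ^ (2 * (r + l)) / 2) ^ 2) ^ 2 = 2 ^ r * 2 ^ l / 16 := by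
          rw [hp2, hp2]
          ring
        rw [h11]
        have h12 : (0 : ℝ) ≤ 2 ^ r := by positivity
        nlinarith
      linarith
    calc ∑ i ∈ range (r + q), Δ i ≤ _ := sum_split Δ hΔ0 (r + q) l
      _ ≤ 19 * A * eta ^ (2 * (r + l)) := by linarith
      _ ≤ 19 * A * (2 * Real.sqrt (Real.sqrt ((m : ℝ) * 2 ^ r))) :=
          mul_le_mul_of_nonneg_left h9 (by positivity)
      _ = 38 * A * Real.sqrt (Real.sqrt ((m : ℝ) * 2 ^ r)) := by ring

end Pool.Agent.H.MP_02f3ba_co.SS
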