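import Pool.Agent.H.MP_02f3ba_co.SS.Cross
import Pool.Agent.H.MP_02f3ba_co.SS.Code
import Pool.Agent.H.MP_02f3ba_co.SS.Ball

/-!
The colouring lemma: a colouring with values `-1, 0, 1`, at least one eighth of them nonzero.
-/

namespace Pool.Agent.H.MP_02f3ba_co.SS

theorem pcol {V ι : Type*} [Fintype V] [DecidableEq V] (hm : 1 ≤ Fintype.card V)
    (S : Finset ι) (v : ι → V → ℝ) (Δ U : ι → ℝ) (hU0 : ∀ s ∈ S, 0 < U s)
    (hΔ0 : ∀ s ∈ S, 0 < Δ s) (hU : ∀ s ∈ S, ∑ y, v s y ^ 2 ≤ U s)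
    (hΔU : ∀ s ∈ S, 4 * U s ≤ Δ s ^ 2)
    (hsum : ∑ s ∈ S, Real.exp (-(Δ s ^ 2 / (4 * U s))) ≤ (Fintype.card V : ℝ) / 32) :
    ∃ χ : V → ℤ, (∀ y, χ y = 1 ∨ χ y = 0 ∨ χ y = -1) ∧
      (Fintype.card V : ℝ) / 8 ≤ ((Finset.univ.filter fun y => χ y ≠ 0).card : ℝ) ∧
      ∀ s ∈ S, |∑ y, v s y * (χ y : ℝ)| ≤ Δ s := by
  classical
  have hc : ∀ s, ∃ q : ℤ → ℝ, s ∈ S → ((∀ k, 0 < q k) ∧ (∀ T : Finset ℤ, ∑ k ∈ T, q k ≤ 1) ∧
      ∑ ω : V → Bool, -Real.log (q (round ((∑ y, v s y * sg (ω y)) / (2 * Δ s)))) ≤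
        4 * Real.exp (-(Δ s ^ 2 / (4 * U s))) * 2 ^ Fintype.card V) := by
    intro s
    by_cases hs : s ∈ S
    · obtain ⟨q, h1, h2, h3⟩ := code (v s) (Δ s) (U s) (hU0 s hs) (hU s hs) (hΔ0 s hs) (hΔU s hs)
      exact ⟨q, fun _ => ⟨h1, h2, h3⟩⟩
    · exact ⟨fun _ => 0, fun h => absurd h hs⟩
  choose q hq using hc
  have hcard : ((Fintype.card (V → Bool) : ℕ) : ℝ) = 2 ^ Fintype.card V := by
    rw [Fintype.card_fun, Fintype.card_bool]
    push_cast
    rfl
  have hE : ∑ s ∈ S, ∑ ω : V → Bool,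
      -Real.log (q s (round ((∑ y, v s y * sg (ω y)) / (2 * Δ s)))) ≤
        ((Fintype.card V : ℝ) / 8) * (Fintype.card (V → Bool) : ℝ) := by
    calc ∑ s ∈ S, ∑ ω : V → Bool,
          -Real.log (q s (round ((∑ y, v s y * sg (ω y)) / (2 * Δ s))))
        ≤ ∑ s ∈ S, 4 * Real.exp (-(Δ s ^ 2 / (4 * U s))) * 2 ^ Fintype.card V :=
          Finset.sum_le_sum fun s hs => (hq s hs).2.2
      _ = 4 * 2 ^ Fintype.card V * ∑ s ∈ S, Real.exp (-(Δ s ^ 2 / (4 * U s))) := by
          rw [Finset.mul_sum]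
          exact Finset.sum_congr rfl fun s _ => by ring
      _ ≤ 4 * 2 ^ Fintype.card V * ((Fintype.card V : ℝ) / 32) :=
          mul_le_mul_of_nonneg_left hsum (by positivity)
      _ = ((Fintype.card V : ℝ) / 8) * (Fintype.card (V → Bool) : ℝ) := by
          rw [hcard]
          ring
  obtain ⟨ω₀, hω⟩ := cross S
    (fun s (ω : V → Bool) => round ((∑ y, v s y * sg (ω y)) / (2 * Δ s))) q
    (fun s hs => (hq s hs).1) (fun s hs => (hq s hs).2.1) ((Fintype.card V : ℝ) / 8) hE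
  rw [hcard] at hω
  obtain ⟨x, hx, y, hy, hxy⟩ := ball hm _ hω
  rw [Finset.mem_filter] at hx hy
  refine ⟨fun w => if x w = y w then 0 else if x w = true then 1 else -1, ?_, ?_, ?_⟩
  · intro w
    by_cases h1 : x w = y w
    · simp [h1]
    · by_cases h2 : x w = true
      · left
        simp only [if_neg h1, if_pos h2]
      · right
        right
        simp only [if_neg h1, if_neg h2]
  · refine hxy.trans (le_of_eq ?_)
    congr 2
    ext w
    simp only [Finset.mem_filter, Finset.mem_univ, true_and]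
    by_cases h1 : x w = y w
    · simp [h1]
    · by_cases h2 : x w = true
      · simp only [if_neg h1, if_pos h2]
        simp [h1]
      · simp only [if_neg h1, if_neg h2]
        simp [h1]
  · intro s hs
    have hD := hΔ0 s hs
    have hval : ∀ w, (((if x w = y w then 0 else if x w = true then 1 else -1 : ℤ)) : ℝ) =
        (sg (x w) - sg (y w)) / 2 := by
      intro w
      unfold sg
      cases hxw : x w <;> cases hyw : y w <;> norm_num
    have hsumeq : ∑ w, v s w * (((if x w = y w then 0 else if x w = true then 1 else -1 : ℤ)) : ℝ)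
        = ((∑ w, v s w * sg (x w)) - (∑ w, v s w * sg (y w))) / 2 := by
      rw [← Finset.sum_sub_distrib, Finset.sum_div]
      refine Finset.sum_congr rfl fun w _ => ?_
      rw [hval w]
      ring
    have key : ∀ z : V → Bool,
        round ((∑ w, v s w * sg (z w)) / (2 * Δ s)) =
          round ((∑ w, v s w * sg (ω₀ w)) / (2 * Δ s)) →
        |(∑ w, v s w * sg (z w)) -
          2 * Δ s * (round ((∑ w, v s w * sg (ω₀ w)) / (2 * Δ s)) : ℝ)| ≤ Δ s := by
      intro z hz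
      rw [← hz]
      have h1 := abs_sub_round ((∑ w, v s w * sg (z w)) / (2 * Δ s))
      have h2 : (∑ w, v s w * sg (z w)) -
          2 * Δ s * (round ((∑ w, v s w * sg (z w)) / (2 * Δ s)) : ℝ) =
          2 * Δ s * ((∑ w, v s w * sg (z w)) / (2 * Δ s) -
            (round ((∑ w, v s w * sg (z w)) / (2 * Δ s)) : ℝ)) := by
        field_simp
      rw [h2, abs_mul, abs_of_pos (by positivity : (0:ℝ) < 2 * Δ s)]
      nlinarith
    have hX := key x (hx.2 s hs)
    have hY := key y (hy.2 s hs)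
    show |∑ w, v s w * (((if x w = y w then 0 else if x w = true then 1 else -1 : ℤ)) : ℝ)| ≤ Δ s
    rw [hsumeq, abs_le]
    rw [abs_le] at hX hY
    constructor <;> linarith [hX.1, hX.2, hY.1, hY.2]

end Pool.Agent.H.MP_02f3ba_co.SS
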