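import Pool.Agent.H.MP_02f3ba_co.SS.PCol
import Pool.Agent.H.MP_02f3ba_co.SS.Num

/-!
One stage of the abstract signing theorem.
-/

namespace Pool.Agent.H.MP_02f3ba_co.SS

theorem stage (Q : ℝ) (hQ : 0 ≤ Q) (q : ℕ) : ∃ C : ℝ, 0 < C ∧
    ∀ (r : ℕ) (V ι : Type) [Fintype V] [DecidableEq V] (S : Finset ι)
      (lev : ι → ℕ) (v : ι → V → ℝ), Fintype.card V = 2 ^ r →
      (∀ s ∈ S, ∀ y, |v s y| ≤ 1) →
      (∀ s ∈ S, (Finset.univ.filter fun y => v s y ≠ 0).card ≤ 2 ^ lev s) →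
      (∀ s ∈ S, lev s < r + q) →
      (∀ i, ((S.filter fun s => lev s = i).card : ℝ) * 2 ^ i ≤ Q * 4 ^ r) →
      ∀ Y : Finset V, Y.Nonempty →
      ∃ χ : V → ℤ, (∀ y, χ y = 1 ∨ χ y = 0 ∨ χ y = -1) ∧
        (Y.card : ℝ) / 8 ≤ ((Y.filter fun y => χ y ≠ 0).card : ℝ) ∧
        ∃ E : ℕ → ℝ, (∀ i, 0 ≤ E i) ∧
          (∀ s ∈ S, |∑ y ∈ Y, v s y * (χ y : ℝ)| ≤ E (lev s)) ∧
          ∑ i ∈ Finset.range (r + q), E i ≤ C * Real.sqrt (Real.sqrt ((Y.card : ℝ) * 2 ^ r)) := by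
  classical
  obtain ⟨C, hC, hnum⟩ := num Q hQ q
  refine ⟨C, hC, ?_⟩
  intro r V ι _ _ S lev v hV hv hsupp hlev hcnt Y hY
  have hm1 : 1 ≤ Y.card := hY.card_pos
  have hle : Y.card ≤ 2 ^ Nat.clog 2 Y.card := Nat.le_pow_clog one_lt_two _
  have hlt : 2 ^ Nat.clog 2 Y.card < 2 * Y.card := by
    rcases Nat.lt_or_ge 1 Y.card with h | h
    · have h1 := Nat.pow_pred_clog_lt_self one_lt_two h
      have h2 : 0 < Nat.clog 2 Y.card := Nat.clog_pos one_lt_two h
      have h3 : 2 ^ Nat.clog 2 Y.card = 2 * 2 ^ (Nat.clog 2 Y.card).pred := by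
        have h4 : Nat.clog 2 Y.card = (Nat.clog 2 Y.card).pred + 1 :=
          (Nat.succ_pred_eq_of_pos h2).symm
        rw [← pow_succ', ← h4]
      omega
    · have h1 : Y.card = 1 := le_antisymm h hm1
      rw [h1]
      simp
  have hlr : Nat.clog 2 Y.card ≤ r := by
    apply Nat.clog_le_of_le_pow
    rw [← hV]
    exact Finset.card_le_univ Y
  obtain ⟨Δ, hΔ0, hΔU, hΔs, hΔC⟩ := hnum r (Nat.clog 2 Y.card) Y.card hlr hlt
  set l := Nat.clog 2 Y.card with hl
  have hU : ∀ s ∈ S, ∑ y : Y, v s y.1 ^ 2 ≤ (2 : ℝ) ^ (min (lev s) l) := by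
    intro s hs
    rw [Finset.sum_coe_sort Y (fun y => v s y ^ 2)]
    have h1 : ∑ y ∈ Y, v s y ^ 2 ≤ ((Y.filter fun y => v s y ≠ 0).card : ℝ) := by
      rw [Finset.card_filter]
      push_cast
      apply Finset.sum_le_sum
      intro y _
      by_cases h : v s y = 0
      · simp [h]
      · rw [if_pos h]
        have h2 := hv s hs y
        rw [← sq_abs]
        have h3 := abs_nonneg (v s y)
        nlinarith
    refine h1.trans ?_
    rcases le_total (lev s) l with h | h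
    · rw [min_eq_left h]
      have h2 : (Y.filter fun y => v s y ≠ 0).card ≤ 2 ^ lev s :=
        (Finset.card_le_card (Finset.filter_subset_filter _ (Finset.subset_univ Y))).trans
          (hsupp s hs)
      exact_mod_cast h2
    · rw [min_eq_right h]
      have h2 : (Y.filter fun y => v s y ≠ 0).card ≤ 2 ^ l :=
        (Finset.card_filter_le _ _).trans hle
      exact_mod_cast h2
  have hsum : ∑ s ∈ S, Real.exp (-(Δ (lev s) ^ 2 / (4 * (2 : ℝ) ^ (min (lev s) l)))) ≤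
      (Y.card : ℝ) / 32 := by
    refine le_trans ?_ hΔs
    rw [← Finset.sum_fiberwise_of_maps_to (s := S) (t := Finset.range (r + q)) (g := lev)
      (fun s hs => Finset.mem_range.2 (hlev s hs))]
    apply Finset.sum_le_sum
    intro i _
    have h1 : ∑ s ∈ S with lev s = i,
        Real.exp (-(Δ (lev s) ^ 2 / (4 * (2 : ℝ) ^ (min (lev s) l)))) =
        ((S.filter fun s => lev s = i).card : ℝ) *
          Real.exp (-(Δ i ^ 2 / (4 * (2 : ℝ) ^ (min i l)))) := by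
      rw [← nsmul_eq_mul, ← Finset.sum_const]
      apply Finset.sum_congr rfl
      intro s hs
      rw [(Finset.mem_filter.1 hs).2]
    rw [h1]
    apply mul_le_mul_of_nonneg_right _ (Real.exp_pos _).le
    rw [le_div_iff₀ (by positivity)]
    exact hcnt i
  obtain ⟨χ', hχ1, hχ2, hχ3⟩ := pcol (V := Y) (by rw [Fintype.card_coe]; exact hm1) S
    (fun s y => v s y.1) (fun s => Δ (lev s)) (fun s => (2 : ℝ) ^ (min (lev s) l))
    (fun s _ => by positivity) (fun s _ => hΔ0 _) hU (fun s hs => hΔU _ (hlev s hs))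
    (by rw [Fintype.card_coe]; exact hsum)
  rw [Fintype.card_coe] at hχ2
  set χ : V → ℤ := fun y => if h : y ∈ Y then χ' ⟨y, h⟩ else 0 with hχ
  have hext : ∀ y : Y, χ y.1 = χ' y := by
    intro y
    simp only [hχ]
    rw [dif_pos y.2]
  refine ⟨χ, ?_, ?_, Δ, fun i => (hΔ0 i).le, ?_, hΔC⟩
  · intro y
    simp only [hχ]
    split_ifs with h
    · exact hχ1 _
    · exact Or.inr (Or.inl rfl)
  · refine hχ2.trans (le_of_eq ?_)
    rw [Finset.card_filter, Finset.card_filter]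
    rw [← Finset.sum_coe_sort Y (fun y => if χ y ≠ 0 then 1 else 0)]
    congr 1
    apply Finset.sum_congr rfl
    intro y _
    rw [hext]
  · intro s hs
    have h1 := hχ3 s hs
    rw [← Finset.sum_coe_sort Y (fun y => v s y * (χ y : ℝ))]
    have h2 : ∑ y : Y, v s y.1 * (χ y.1 : ℝ) = ∑ y : Y, v s y.1 * (χ' y : ℝ) := by
      apply Finset.sum_congr rfl
      intro y _
      rw [hext]
    rw [h2]
    exact h1

end Pool.Agent.H.MP_02f3ba_co.SS
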