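import Pool.Agent.H.MP_02f3ba_co.SS.GD
import Pool.Agent.H.MP_02f3ba_co.SS.Blocks

/-!
The tower construction: one sequence which is optimal at infinitely many prescribed scales.
-/

namespace Pool.Agent.H.MP_02f3ba_co.SS

open Finset

/-- the state of the construction -/
private structure TowerSt where
  L : ℕ
  A : ℕ → ℤ
  Dp : ℕ
  hL : 1 ≤ L
  hA : ∀ n, A n = 1 ∨ A n = -1

private theorem tower_clog {D : ℕ} (hD : 1 ≤ D) : 2 ^ Nat.clog 2 D ≤ 2 * D := by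
  rcases Nat.lt_or_ge 1 D with h | h
  · have h1 := Nat.pow_pred_clog_lt_self (b := 2) (by norm_num) h
    have h2 : 0 < Nat.clog 2 D := Nat.clog_pos (by norm_num) h
    have h3 : 2 ^ Nat.clog 2 D = 2 * 2 ^ (Nat.clog 2 D).pred := by
      have h4 : (Nat.clog 2 D).pred + 1 = Nat.clog 2 D := Nat.succ_pred_eq_of_pos h2
      rw [← pow_succ', h4]
    rw [h3]
    omega
  · have h1 : D = 1 := le_antisymm h hD
    rw [h1]
    simp

private theorem tower_step (P : ℝ → ℕ → Prop) (hP : ∀ K : ℝ, ∀ N : ℕ, ∃ D, N < D ∧ P K D)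
    (j : ℕ) (s : TowerSt) : ∃ (t : TowerSt) (K : ℝ), s.Dp < t.Dp ∧ (j : ℝ) ≤ K ∧ P K t.Dp ∧
      s.L ∣ t.L ∧ 2 * s.L ≤ t.L ∧ Blocks s.L s.A t.A ∧
      ∀ f : ℕ → ℤ, Blocks t.L t.A f → ∀ a d n : ℕ, 1 ≤ d → d ≤ t.Dp →
        |((∑ k ∈ range n, f (a + k * d) : ℤ) : ℝ)| ≤ K * Real.sqrt t.Dp := by
  obtain ⟨K0, hK0, hgd⟩ := gd s.L s.hL
  obtain ⟨D, hD, hPD⟩ := hP (max (j : ℝ) (2 * Real.sqrt 2 * K0)) s.Dp
  have hD1 : 1 ≤ D := by omega
  obtain ⟨r, hr⟩ : ∃ r, r = Nat.clog 2 D := ⟨_, rfl⟩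
  have hr1 : D ≤ 2 ^ r := by
    rw [hr]
    exact Nat.le_pow_clog (by norm_num) D
  have hr2 : 2 ^ r ≤ 2 * D := by
    rw [hr]
    exact tower_clog hD1
  obtain ⟨ε, hε, hε0, hB⟩ := hgd s.A s.hA r
  have hfac : 1 ≤ D.factorial := Nat.factorial_pos D
  have hpow : 1 ≤ 2 ^ r := Nat.one_le_two_pow
  have hML : s.L ≤ 2 ^ r * s.L := Nat.le_mul_of_pos_left _ hpow
  have h2L : 2 * s.L ≤ 2 * (2 ^ r * s.L) * D.factorial :=
    (Nat.mul_le_mul_left 2 hML).trans (Nat.le_mul_of_pos_right _ hfac)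
  have hL' : 1 ≤ 2 * (2 ^ r * s.L) * D.factorial := by
    have := s.hL
    omega
  refine ⟨⟨2 * (2 ^ r * s.L) * D.factorial, anti s.L r s.A ε, D, hL',
    anti_sign s.L r s.A ε s.hA hε⟩, max (j : ℝ) (2 * Real.sqrt 2 * K0), hD, le_max_left _ _, hPD,
    ?_, h2L, blocks_anti s.L r s.hL s.A ε hε hε0, ?_⟩
  · exact Dvd.intro_left (2 * 2 ^ r * D.factorial) (by ring)
  · intro f hf a d n hd hdD
    have hdD' : d ≤ D := hdD
    have hd2 : d ≤ 2 ^ r := hdD'.trans hr1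
    obtain ⟨w, hw⟩ : d ∣ D.factorial := Nat.dvd_factorial hd hdD'
    have hdL : d ∣ 2 * (2 ^ r * s.L) * D.factorial := Dvd.dvd.mul_left ⟨w, hw⟩ _
    have hquot : 2 * (2 ^ r * s.L) * D.factorial / d = w * (2 * (2 ^ r * s.L)) := by
      rw [hw]
      have h1 : 2 * (2 ^ r * s.L) * (d * w) = d * (w * (2 * (2 ^ r * s.L))) := by ring
      rw [h1, Nat.mul_div_cancel_left _ hd]
    have h1 := blocks_sum (2 * (2 ^ r * s.L) * D.factorial) hL' (anti s.L r s.A ε) f hf d hd hdL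
      (K0 * Real.sqrt (2 ^ r))
      (fun c _ => by
        rw [hquot]
        exact anti_zero s.L r s.hL s.A ε d hd hd2 c w)
      (fun c n' _ _ => hB d hd hd2 c n') a n
    refine h1.trans ?_
    have h2 : Real.sqrt (2 ^ r) ≤ Real.sqrt 2 * Real.sqrt D := by
      rw [← Real.sqrt_mul (by norm_num)]
      refine Real.sqrt_le_sqrt ?_
      exact_mod_cast hr2
    calc 2 * (K0 * Real.sqrt (2 ^ r)) ≤ 2 * (K0 * (Real.sqrt 2 * Real.sqrt D)) := by
          refine mul_le_mul_of_nonneg_left ?_ (by norm_num)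
          exact mul_le_mul_of_nonneg_left h2 hK0.le
      _ = 2 * Real.sqrt 2 * K0 * Real.sqrt D := by ring
      _ ≤ max (j : ℝ) (2 * Real.sqrt 2 * K0) * Real.sqrt D :=
          mul_le_mul_of_nonneg_right (le_max_right _ _) (Real.sqrt_nonneg _)

theorem tower (P : ℝ → ℕ → Prop) (hP : ∀ K : ℝ, ∀ N : ℕ, ∃ D, N < D ∧ P K D) :
    ∃ f : ℕ → ℤ, (∀ n, f n = 1 ∨ f n = -1) ∧ ∃ (D : ℕ → ℕ) (K : ℕ → ℝ), StrictMono D ∧
      (∀ j, 1 ≤ D j) ∧ (∀ j : ℕ, (j : ℝ) ≤ K j) ∧ (∀ j, P (K j) (D j)) ∧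
      ∀ j a d n : ℕ, 1 ≤ d → d ≤ D j →
        |((∑ k ∈ range n, f (a + k * d) : ℤ) : ℝ)| ≤ K j * Real.sqrt (D j) := by
  choose nx KK h1 h2 h3 h4 h5 h6 h7 using tower_step P hP
  obtain ⟨S, hS⟩ : ∃ S : ℕ → TowerSt, ∀ j, S (j + 1) = nx j (S j) :=
    ⟨fun j => Nat.rec ⟨1, fun _ => 1, 0, le_rfl, fun _ => Or.inl rfl⟩ (fun j s => nx j s) j,
      fun j => rfl⟩
  have hdvd : ∀ i j, i ≤ j → (S i).L ∣ (S j).L := by
    intro i j hij
    induction j, hij using Nat.le_induction with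
    | base => exact dvd_rfl
    | succ j _ ih =>
      rw [hS j]
      exact ih.trans (h4 j (S j))
  have hLpow : ∀ j, 2 ^ j ≤ (S j).L := by
    intro j
    induction j with
    | zero => simpa using (S 0).hL
    | succ j ih =>
      rw [hS j, pow_succ']
      exact (Nat.mul_le_mul_left 2 ih).trans (h5 j (S j))
  have hLlt : ∀ j, j < (S j).L := fun j => Nat.lt_two_pow_self.trans_le (hLpow j)
  have hbl : ∀ i j, i < j → Blocks (S i).L (S i).A (S j).A := by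
    intro i j hij
    induction j, hij using Nat.le_induction with
    | base =>
      rw [Nat.succ_eq_add_one, hS i]
      exact h6 i (S i)
    | succ j hj ih =>
      refine blocks_trans (S i).L (S j).L (S i).hL (S j).hL (hdvd i j (by omega)) (S i).A (S j).A
        (S (j + 1)).A ih ?_
      rw [hS j]
      exact h6 j (S j)
  have hagree : ∀ i j t, t < (S i).L → t < (S j).L → (S i).A t = (S j).A t := by
    intro i j t hi hj
    rcases lt_trichotomy i j with h | h | h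
    · exact ((hbl i j h).1 t hi).symm
    · rw [h]
    · exact (hbl j i h).1 t hj
  have hf : ∀ j, Blocks (S j).L (S j).A (fun t => (S (t + 1)).A t) := by
    intro j
    refine ⟨fun t ht => hagree (t + 1) j t ((Nat.lt_succ_self t).trans (hLlt (t + 1))) ht,
      fun b => ?_⟩
    obtain ⟨i, hi⟩ : ∃ i, i = (b + 1) * (S j).L + j + 1 := ⟨_, rfl⟩
    have hij : j < i := by omega
    obtain ⟨s, hs, hst⟩ := (hbl j i hij).2 b
    refine ⟨s, hs, fun t ht => ?_⟩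
    rw [← hst t ht]
    have hlt : b * (S j).L + t < (S i).L := by
      have h8 : b * (S j).L + t < (b + 1) * (S j).L := by
        rw [add_mul, one_mul]
        omega
      have h9 := hLlt i
      omega
    exact hagree (b * (S j).L + t + 1) i (b * (S j).L + t)
      ((Nat.lt_succ_self _).trans (hLlt (b * (S j).L + t + 1))) hlt
  refine ⟨fun t => (S (t + 1)).A t, fun n => (S (n + 1)).hA n, fun j => (S (j + 1)).Dp,
    fun j => KK j (S j), ?_, ?_, ?_, ?_, ?_⟩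
  · refine strictMono_nat_of_lt_succ fun j => ?_
    show (S (j + 1)).Dp < (S (j + 1 + 1)).Dp
    rw [hS (j + 1)]
    exact h1 (j + 1) (S (j + 1))
  · intro j
    show 1 ≤ (S (j + 1)).Dp
    rw [hS j]
    exact Nat.one_le_iff_ne_zero.2 (Nat.ne_zero_of_lt (h1 j (S j)))
  · exact fun j => h2 j (S j)
  · intro j
    show P (KK j (S j)) (S (j + 1)).Dp
    rw [hS j]
    exact h3 j (S j)
  · intro j a d n hd hdD
    have h8 := hf (j + 1)
    have hdD' : d ≤ (S (j + 1)).Dp := hdD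
    rw [hS j] at h8 hdD'
    have h9 := h7 j (S j) (fun t => (S (t + 1)).A t) h8 a d n hd hdD'
    show |((∑ k ∈ range n, (S (a + k * d + 1)).A (a + k * d) : ℤ) : ℝ)| ≤
      KK j (S j) * Real.sqrt ((S (j + 1)).Dp)
    rw [hS j]
    exact h9

end Pool.Agent.H.MP_02f3ba_co.SS
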